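import Mathlib

/-!
# Minimal non-list-colourable induced subgraphs
-/

namespace Pool.Agent.TH456.EF

open SimpleGraph Finset

set_option linter.unusedSectionVars false

/-- A cycle of length four is `2`-choosable. -/
theorem four_cycle (A B C D : Finset ℕ) (hA : 2 ≤ A.card) (hB : 2 ≤ B.card) (hC : 2 ≤ C.card)
    (hD : 2 ≤ D.card) :
    ∃ a ∈ A, ∃ b ∈ B, ∃ c ∈ C, ∃ d ∈ D, a ≠ b ∧ b ≠ c ∧ c ≠ d ∧ d ≠ a := by
  classical
  have pick : ∀ (S : Finset ℕ) (x y : ℕ), ¬ S ⊆ {x, y} → ∃ s ∈ S, s ≠ x ∧ s ≠ y := by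
    intro S x y h
    rw [Finset.not_subset] at h
    obtain ⟨s, hs, h2⟩ := h
    simp only [mem_insert, mem_singleton, not_or] at h2
    exact ⟨s, hs, h2.1, h2.2⟩
  have small : ∀ (S : Finset ℕ) (x : ℕ), 2 ≤ S.card → ¬ S ⊆ {x} := by
    intro S x hS h
    have := Finset.card_le_card h
    simp at this
    omega
  by_cases hAC : ∃ t, t ∈ A ∧ t ∈ C
  · obtain ⟨t, htA, htC⟩ := hAC
    obtain ⟨b, hb, hb1, _⟩ := pick B t t (by simpa using small B t hB)
    obtain ⟨d, hd, hd1, _⟩ := pick D t t (by simpa using small D t hD)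
    exact ⟨t, htA, b, hb, t, htC, d, hd, hb1.symm, hb1, hd1.symm, hd1⟩
  · push Not at hAC
    obtain ⟨a1, ha1, a2, ha2, hne⟩ := Finset.one_lt_card.mp hA
    obtain ⟨c1, hc1, c2, hc2, hne'⟩ := Finset.one_lt_card.mp hC
    have n11 : a1 ≠ c1 := fun h => hAC a1 ha1 (h ▸ hc1)
    have n12 : a1 ≠ c2 := fun h => hAC a1 ha1 (h ▸ hc2)
    have n21 : a2 ≠ c1 := fun h => hAC a2 ha2 (h ▸ hc1)
    have n22 : a2 ≠ c2 := fun h => hAC a2 ha2 (h ▸ hc2)
    by_contra hcon
    have bad : ∀ a ∈ A, ∀ c ∈ C, B ⊆ {a, c} ∨ D ⊆ {a, c} := by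
      intro a ha c hc
      by_contra h
      rw [not_or] at h
      obtain ⟨b, hb, hb1, hb2⟩ := pick B a c h.1
      obtain ⟨d, hd, hd1, hd2⟩ := pick D a c h.2
      exact hcon ⟨a, ha, b, hb, c, hc, d, hd, hb1.symm, hb2, hd2.symm, hd1⟩
    -- two different pairs cannot both contain a set of size two
    have two : ∀ S : Finset ℕ, 2 ≤ S.card → ∀ x y z w : ℕ,
        (∀ t, (t = x ∨ t = y) → (t = z ∨ t = w) → t = x) ∨
        (∀ t, (t = x ∨ t = y) → (t = z ∨ t = w) → t = y) →
        S ⊆ {x, y} → S ⊆ {z, w} → False := by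
      intro S hS x y z w h h1 h2
      rcases h with h | h
      · apply small S x hS
        intro t ht
        rw [mem_singleton]
        apply h
        · simpa using h1 ht
        · simpa using h2 ht
      · apply small S y hS
        intro t ht
        rw [mem_singleton]
        apply h
        · simpa using h1 ht
        · simpa using h2 ht
    have b1 := bad a1 ha1 c1 hc1
    have b2 := bad a1 ha1 c2 hc2
    have b3 := bad a2 ha2 c1 hc1
    have b4 := bad a2 ha2 c2 hc2
    have t12 : ∀ S : Finset ℕ, 2 ≤ S.card → S ⊆ {a1, c1} → S ⊆ {a1, c2} → False :=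
      fun S hS => two S hS a1 c1 a1 c2 (by left; intro t; omega)
    have t13 : ∀ S : Finset ℕ, 2 ≤ S.card → S ⊆ {a1, c1} → S ⊆ {a2, c1} → False :=
      fun S hS => two S hS a1 c1 a2 c1 (by right; intro t; omega)
    have t14 : ∀ S : Finset ℕ, 2 ≤ S.card → S ⊆ {a1, c1} → S ⊆ {a2, c2} → False :=
      fun S hS => two S hS a1 c1 a2 c2 (by right; intro t; omega)
    have t23 : ∀ S : Finset ℕ, 2 ≤ S.card → S ⊆ {a1, c2} → S ⊆ {a2, c1} → False :=
      fun S hS => two S hS a1 c2 a2 c1 (by right; intro t; omega)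
    have t24 : ∀ S : Finset ℕ, 2 ≤ S.card → S ⊆ {a1, c2} → S ⊆ {a2, c2} → False :=
      fun S hS => two S hS a1 c2 a2 c2 (by right; intro t; omega)
    have t34 : ∀ S : Finset ℕ, 2 ≤ S.card → S ⊆ {a2, c1} → S ⊆ {a2, c2} → False :=
      fun S hS => two S hS a2 c1 a2 c2 (by left; intro t; omega)
    rcases b1 with b1 | b1 <;> rcases b2 with b2 | b2 <;> rcases b3 with b3 | b3 <;>
      rcases b4 with b4 | b4 <;>
      first
      | exact t12 B hB b1 b2
      | exact t12 D hD b1 b2
      | exact t13 B hB b1 b3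
      | exact t13 D hD b1 b3
      | exact t14 B hB b1 b4
      | exact t14 D hD b1 b4
      | exact t23 B hB b2 b3
      | exact t23 D hD b2 b3
      | exact t24 B hB b2 b4
      | exact t24 D hD b2 b4
      | exact t34 B hB b3 b4
      | exact t34 D hD b3 b4

variable {V : Type} [Fintype V] [DecidableEq V] {G : SimpleGraph V} [DecidableRel G.Adj]

/-- The subgraph induced on `U` has a colouring from the lists `L`. -/
def Col (G : SimpleGraph V) (L : V → Finset ℕ) (U : Finset V) : Prop :=
  ∃ f : V → ℕ, (∀ v ∈ U, f v ∈ L v) ∧ ∀ u ∈ U, ∀ v ∈ U, G.Adj u v → f u ≠ f v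

/-- The degree of a vertex in the subgraph induced on `U`. -/
def dgU (G : SimpleGraph V) [DecidableRel G.Adj] (U : Finset V) (v : V) : ℕ :=
  (U.filter fun w => G.Adj v w).card

theorem exists_min {L : V → Finset ℕ} (h : ¬ Col G L univ) :
    ∃ U : Finset V, ¬ Col G L U ∧ ∀ W, W ⊂ U → Col G L W := by
  classical
  obtain ⟨U, hU, hmin⟩ := Finset.exists_min_image
    ((univ : Finset (Finset V)).filter fun U => ¬ Col G L U) Finset.card
    ⟨univ, by simpa using h⟩
  refine ⟨U, (mem_filter.mp hU).2, fun W hW => ?_⟩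
  by_contra hcon
  have := hmin W (by simpa using hcon)
  have := Finset.card_lt_card hW
  omega

theorem min_deg {L : V → Finset ℕ} (hL : ∀ v, 4 ≤ (L v).card) {U : Finset V}
    (hU : ¬ Col G L U) (hmin : ∀ W, W ⊂ U → Col G L W) {v : V} (hv : v ∈ U) :
    4 ≤ dgU G U v := by
  classical
  by_contra hcon
  push Not at hcon
  obtain ⟨f, hf1, hf2⟩ := hmin (U.erase v) (Finset.erase_ssubset hv)
  let S := (U.filter fun w => G.Adj v w).image f
  have hS : S.card < (L v).card := by
    have : S.card ≤ dgU G U v := Finset.card_image_le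
    have := hL v
    omega
  obtain ⟨c, hc, hcS⟩ := Finset.exists_mem_notMem_of_card_lt_card hS
  apply hU
  refine ⟨Function.update f v c, ?_, ?_⟩
  · intro w hw
    by_cases h : w = v
    · subst h; simpa using hc
    · rw [Function.update_of_ne h]
      exact hf1 w (Finset.mem_erase.mpr ⟨h, hw⟩)
  · have key : ∀ w ∈ U, G.Adj v w → c ≠ f w := by
      intro w hw hadj h
      apply hcS
      rw [h]
      exact Finset.mem_image_of_mem f (Finset.mem_filter.mpr ⟨hw, hadj⟩)
    intro a ha b hb hab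
    by_cases h1 : a = v
    · subst h1
      have h2 : b ≠ a := hab.ne'
      rw [Function.update_self, Function.update_of_ne h2]
      exact key b hb hab
    · by_cases h2 : b = v
      · subst h2
        rw [Function.update_self, Function.update_of_ne h1]
        exact (key a ha hab.symm).symm
      · rw [Function.update_of_ne h1, Function.update_of_ne h2]
        exact hf2 a (Finset.mem_erase.mpr ⟨h1, ha⟩) b (Finset.mem_erase.mpr ⟨h2, hb⟩) hab

theorem four_cycle_deg {L : V → Finset ℕ} (hL : ∀ v, 4 ≤ (L v).card) {U : Finset V}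
    (hU : ¬ Col G L U) (hmin : ∀ W, W ⊂ U → Col G L W) {a b c d : V}
    (ha : a ∈ U) (hb : b ∈ U) (hc : c ∈ U) (hd : d ∈ U)
    (hab : G.Adj a b) (hbc : G.Adj b c) (hcd : G.Adj c d) (hda : G.Adj d a)
    (hac : a ≠ c) (hbd : b ≠ d) (nac : ¬ G.Adj a c) (nbd : ¬ G.Adj b d) :
    5 ≤ dgU G U a ∨ 5 ≤ dgU G U b ∨ 5 ≤ dgU G U c ∨ 5 ≤ dgU G U d := by
  classical
  by_contra hcon
  push Not at hcon
  obtain ⟨da, db, dc, dd⟩ := hcon
  set K : Finset V := {a, b, c, d} with hK
  have hsub : U \ K ⊂ U := by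
    refine Finset.sdiff_ssubset ?_ ⟨a, by simp [hK]⟩
    intro x hx
    simp only [hK, mem_insert, mem_singleton] at hx
    rcases hx with rfl | rfl | rfl | rfl <;> assumption
  obtain ⟨f, hf1, hf2⟩ := hmin (U \ K) hsub
  -- the colours left
  let A : V → Finset ℕ := fun v => L v \ ((U \ K).filter fun w => G.Adj v w).image f
  have hA : ∀ v x y : V, x ∈ U → y ∈ U → x ∈ K → y ∈ K → x ≠ y → G.Adj v x → G.Adj v y →
      dgU G U v < 5 → 2 ≤ (A v).card := by
    intro v x y hx hy hxK hyK hxy hvx hvy hdeg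
    have h1 : ((U \ K).filter fun w => G.Adj v w) ⊆ ((U.filter fun w => G.Adj v w).erase x).erase y := by
      intro w hw
      simp only [mem_filter, mem_sdiff] at hw
      simp only [mem_erase, mem_filter]
      refine ⟨?_, ?_, hw.1.1, hw.2⟩
      · rintro rfl; exact hw.1.2 hyK
      · rintro rfl; exact hw.1.2 hxK
    have h2 : (((U.filter fun w => G.Adj v w).erase x).erase y).card + 2 = dgU G U v := by
      unfold dgU
      have e1 : x ∈ U.filter fun w => G.Adj v w := mem_filter.mpr ⟨hx, hvx⟩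
      have e2 : y ∈ (U.filter fun w => G.Adj v w).erase x :=
        mem_erase.mpr ⟨hxy.symm, mem_filter.mpr ⟨hy, hvy⟩⟩
      have e3 := Finset.card_erase_add_one e1
      have e4 := Finset.card_erase_add_one e2
      omega
    have h3 := Finset.card_le_card h1
    have h4 : (((U \ K).filter fun w => G.Adj v w).image f).card
        ≤ ((U \ K).filter fun w => G.Adj v w).card := Finset.card_image_le
    have h5 := Finset.le_card_sdiff (((U \ K).filter fun w => G.Adj v w).image f) (L v)
    have h6 := hL v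
    change 2 ≤ (L v \ _).card
    omega
  have haK : a ∈ K := by simp [hK]
  have hbK : b ∈ K := by simp [hK]
  have hcK : c ∈ K := by simp [hK]
  have hdK : d ∈ K := by simp [hK]
  obtain ⟨ca, hca, cb, hcb, cc, hcc, cd, hcd', e1, e2, e3, e4⟩ :=
    four_cycle (A a) (A b) (A c) (A d)
      (hA a b d hb hd hbK hdK hbd hab hda.symm da)
      (hA b a c ha hc haK hcK hac hab.symm hbc db)
      (hA c b d hb hd hbK hdK hbd hbc.symm hcd dc)
      (hA d a c ha hc haK hcK hac hda hcd.symm dd)
  have nab : a ≠ b := hab.ne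
  have nbc : b ≠ c := hbc.ne
  have ncd : c ≠ d := hcd.ne
  have nda : d ≠ a := hda.ne
  let h : V → ℕ := fun v => if v = a then ca else if v = b then cb else if v = c then cc else
    if v = d then cd else f v
  have h_a : h a = ca := by simp [h]
  have h_b : h b = cb := by simp [h, nab.symm]
  have h_c : h c = cc := by simp [h, hac.symm, nbc.symm]
  have h_d : h d = cd := by simp [h, nda, hbd.symm, ncd.symm]
  have h_o : ∀ v, v ∉ K → h v = f v := by
    intro v hv
    simp only [hK, mem_insert, mem_singleton, not_or] at hv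
    simp [h, hv.1, hv.2.1, hv.2.2.1, hv.2.2.2]
  have hin : ∀ v ∈ K, h v ∈ A v := by
    intro v hv
    simp only [hK, mem_insert, mem_singleton] at hv
    rcases hv with rfl | rfl | rfl | rfl
    · rw [h_a]; exact hca
    · rw [h_b]; exact hcb
    · rw [h_c]; exact hcc
    · rw [h_d]; exact hcd'
  -- a vertex of the cycle and a vertex outside
  have hout : ∀ v ∈ K, ∀ w ∈ U, w ∉ K → G.Adj v w → h v ≠ h w := by
    intro v hv w hw hwK hadj heq
    have h1 := (mem_sdiff.mp (hin v hv)).2
    apply h1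
    rw [heq, h_o w hwK]
    exact mem_image_of_mem f (mem_filter.mpr ⟨mem_sdiff.mpr ⟨hw, hwK⟩, hadj⟩)
  apply hU
  refine ⟨h, ?_, ?_⟩
  · intro v hv
    by_cases hvK : v ∈ K
    · exact (mem_sdiff.mp (hin v hvK)).1
    · rw [h_o v hvK]
      exact hf1 v (mem_sdiff.mpr ⟨hv, hvK⟩)
  · intro u hu v hv huv
    by_cases huK : u ∈ K
    · by_cases hvK : v ∈ K
      · simp only [hK, mem_insert, mem_singleton] at huK hvK
        rcases huK with rfl | rfl | rfl | rfl <;> rcases hvK with rfl | rfl | rfl | rfl <;>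
          simp only [h_a, h_b, h_c, h_d] <;>
          first
          | exact absurd rfl huv.ne
          | exact e1
          | exact e2
          | exact e3
          | exact e4
          | exact e1.symm
          | exact e2.symm
          | exact e3.symm
          | exact e4.symm
          | exact absurd huv nac
          | exact absurd huv.symm nac
          | exact absurd huv nbd
          | exact absurd huv.symm nbd
      · exact hout u huK v hv hvK huv
    · by_cases hvK : v ∈ K
      · exact (hout v hvK u hu huK huv.symm).symm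
      · rw [h_o u huK, h_o v hvK]
        exact hf2 u (mem_sdiff.mpr ⟨hu, huK⟩) v (mem_sdiff.mpr ⟨hv, hvK⟩) huv

end Pool.Agent.TH456.EF
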