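import Pool.Agent.TH456.EF.Defs

/-!
# Chains modulo 2 of an embedded graph
-/

namespace Pool.Agent.TH456.EF

open SimpleGraph Finset

variable {V : Type} [Fintype V] [DecidableEq V] {G : SimpleGraph V} [DecidableRel G.Adj]

/-- The edge of a dart. -/
def ed (d : G.Dart) : G.edgeSet := ⟨d.edge, d.edge_mem⟩

omit [Fintype V] [DecidableEq V] [DecidableRel G.Adj] in
theorem ed_eq {d e : G.Dart} : ed d = ed e ↔ d = e ∨ d = e.symm := by
  unfold ed
  rw [Subtype.mk.injEq]
  exact dart_edge_eq_iff d e

omit [Fintype V] [DecidableEq V] [DecidableRel G.Adj] in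
@[simp] theorem ed_symm (d : G.Dart) : ed d.symm = ed d := ed_eq.mpr (Or.inr rfl)

omit [Fintype V] [DecidableEq V] [DecidableRel G.Adj] in
theorem exists_ed (e : G.edgeSet) : ∃ d : G.Dart, ed d = e := by
  obtain ⟨e, he⟩ := e
  induction e with
  | h u v => exact ⟨⟨(u, v), he⟩, rfl⟩

/-- Sum of a function of the darts over the two darts of an edge. -/
def fold (x : G.Dart → ZMod 2) (e : G.edgeSet) : ZMod 2 :=
  ∑ d : G.Dart, if ed d = e then x d else 0

theorem fold_ed (x : G.Dart → ZMod 2) (d : G.Dart) : fold x (ed d) = x d + x d.symm := by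
  unfold fold
  have h : ∀ d' : G.Dart, (if ed d' = ed d then x d' else 0)
      = (if d' = d then x d' else 0) + (if d' = d.symm then x d' else 0) := by
    intro d'
    by_cases h1 : d' = d
    · subst h1
      simp [(Dart.symm_ne d').symm]
    · by_cases h2 : d' = d.symm
      · subst h2
        simp [h1]
      · simp [ed_eq, h1, h2]
  rw [Finset.sum_congr rfl (fun d' _ => h d'), Finset.sum_add_distrib]
  simp

/-- The boundary map. -/
def bdm : (G.edgeSet → ZMod 2) →ₗ[ZMod 2] (V → ZMod 2) where
  toFun z v := ∑ d : G.Dart, if d.fst = v then z (ed d) else 0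
  map_add' z z' := by
    funext v
    simp only [Pi.add_apply]
    rw [← Finset.sum_add_distrib]
    apply Finset.sum_congr rfl
    intro d _
    split_ifs <;> simp
  map_smul' c z := by
    funext v
    simp only [Pi.smul_apply, smul_eq_mul, RingHom.id_apply]
    rw [Finset.mul_sum]
    apply Finset.sum_congr rfl
    intro d _
    split_ifs <;> simp

theorem bdm_apply (z : G.edgeSet → ZMod 2) (v : V) :
    bdm z v = ∑ d : G.Dart, if d.fst = v then z (ed d) else 0 := rfl

/-- Fold as a linear map. -/
def foldm : (G.Dart → ZMod 2) →ₗ[ZMod 2] (G.edgeSet → ZMod 2) where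
  toFun := fold
  map_add' x y := by
    funext e
    simp only [fold, Pi.add_apply]
    rw [← Finset.sum_add_distrib]
    apply Finset.sum_congr rfl
    intro d _
    split_ifs <;> simp
  map_smul' c x := by
    funext e
    simp only [fold, Pi.smul_apply, smul_eq_mul, RingHom.id_apply]
    rw [Finset.mul_sum]
    apply Finset.sum_congr rfl
    intro d _
    split_ifs <;> simp

/-- The pairing of a function of the vertices with a boundary. -/
theorem pairing (f : V → ZMod 2) (z : G.edgeSet → ZMod 2) :
    ∑ v, f v * bdm z v = ∑ e, fold (fun d : G.Dart => f d.fst) e * z e := by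
  have h1 : ∑ v, f v * bdm z v = ∑ d : G.Dart, f d.fst * z (ed d) := by
    simp_rw [bdm_apply, Finset.mul_sum]
    rw [Finset.sum_comm]
    apply Finset.sum_congr rfl
    intro d _
    simp
  have h2 : ∑ e, fold (fun d : G.Dart => f d.fst) e * z e = ∑ d : G.Dart, f d.fst * z (ed d) := by
    simp_rw [fold, Finset.sum_mul]
    rw [Finset.sum_comm]
    apply Finset.sum_congr rfl
    intro d _
    simp
  rw [h1, h2]

/-- The incidence matrix. -/
def incm : Matrix V G.edgeSet (ZMod 2) := fun v e =>
  ∑ d : G.Dart, if d.fst = v ∧ ed d = e then 1 else 0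

theorem incm_mulVec (z : G.edgeSet → ZMod 2) : incm.mulVec z = bdm z := by
  funext v
  rw [bdm_apply]
  simp only [Matrix.mulVec, dotProduct, incm, Finset.sum_mul]
  rw [Finset.sum_comm]
  apply Finset.sum_congr rfl
  intro d _
  by_cases h : d.fst = v
  · simp [h]
  · simp [h]

theorem incm_transpose_mulVec (f : V → ZMod 2) :
    (incm (G := G)).transpose.mulVec f = fold (fun d : G.Dart => f d.fst) := by
  funext e
  simp only [Matrix.mulVec, dotProduct, incm, Matrix.transpose_apply, fold, Finset.sum_mul]
  rw [Finset.sum_comm]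
  apply Finset.sum_congr rfl
  intro d _
  by_cases h : ed d = e
  · simp [h]
  · simp [h]

/-- The cycle space. -/
def Z (G : SimpleGraph V) [DecidableRel G.Adj] : Submodule (ZMod 2) (G.edgeSet → ZMod 2) :=
  LinearMap.ker bdm

theorem mem_Z {z : G.edgeSet → ZMod 2} : z ∈ Z G ↔ bdm z = 0 := Iff.rfl

theorem finrank_Z_le :
    Module.finrank (ZMod 2) (Z G) + Fintype.card V
      ≤ Fintype.card G.edgeSet + Nat.card G.ConnectedComponent := by
  classical
  have hr1 : (incm (G := G)).rank + Module.finrank (ZMod 2) (Z G) = Fintype.card G.edgeSet := by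
    have h := LinearMap.finrank_range_add_finrank_ker (incm (G := G)).mulVecLin
    have hk : LinearMap.ker (incm (G := G)).mulVecLin = Z G := by
      ext z
      simp only [LinearMap.mem_ker, Matrix.mulVecLin_apply, incm_mulVec]
      exact Iff.rfl
    rw [hk] at h
    rw [Matrix.rank, h]
    simp
  have hr2 : (incm (G := G)).rank
      + Module.finrank (ZMod 2) (LinearMap.ker (incm (G := G)).transpose.mulVecLin)
      = Fintype.card V := by
    have h := LinearMap.finrank_range_add_finrank_ker (incm (G := G)).transpose.mulVecLin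
    rw [← Matrix.rank_transpose (incm (G := G)), Matrix.rank, h]
    simp
  have hr3 : Module.finrank (ZMod 2) (LinearMap.ker (incm (G := G)).transpose.mulVecLin)
      ≤ Nat.card G.ConnectedComponent := by
    have : Fintype G.ConnectedComponent := Fintype.ofFinite _
    rw [Nat.card_eq_fintype_card]
    let T : LinearMap.ker (incm (G := G)).transpose.mulVecLin →ₗ[ZMod 2]
        (G.ConnectedComponent → ZMod 2) :=
      { toFun := fun f C => f.1 C.out
        map_add' := fun f g => rfl
        map_smul' := fun c f => rfl }
    have hT : Function.Injective T := by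
      rw [← LinearMap.ker_eq_bot, LinearMap.ker_eq_bot']
      rintro ⟨f, hf⟩ h
      have hadj : ∀ u v, G.Adj u v → f u = f v := by
        intro u v huv
        have h1 : (incm (G := G)).transpose.mulVec f = 0 := hf
        rw [incm_transpose_mulVec] at h1
        have h2 := congrFun h1 (ed ⟨(u, v), huv⟩)
        rw [fold_ed] at h2
        simp only [Dart.symm_mk, Prod.swap_prod_mk, Pi.zero_apply] at h2
        exact CharTwo.add_eq_zero.mp h2
      have hreach : ∀ u v, G.Reachable u v → f u = f v := by
        rintro u v ⟨p⟩
        induction p with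
        | nil => rfl
        | cons h p ih => rw [hadj _ _ h, ih]
      ext v
      have h3 := congrFun h (G.connectedComponentMk v)
      simp only [T, LinearMap.coe_mk, AddHom.coe_mk, Pi.zero_apply] at h3
      have h4 : G.Reachable (G.connectedComponentMk v).out v :=
        ConnectedComponent.exact (Quot.out_eq _)
      rw [hreach _ _ h4] at h3
      simpa using h3
    have := LinearMap.finrank_le_finrank_of_injective hT
    simpa using this
  omega

end Pool.Agent.TH456.EF
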