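import Mathlib

/-!
# Graphs embedded in closed orientable surfaces, combinatorially

A finite graph embedded in an orientable surface is given by its rotation system.
-/

namespace Pool.Agent.TH456.EF

open SimpleGraph

/-- A rotation system of a simple graph: a permutation of the darts (oriented edges) that keeps the
initial vertex and permutes the darts leaving any given vertex in a single cycle. -/
structure Rotation {V : Type} (G : SimpleGraph V) where
  next : Equiv.Perm G.Dart
  fst_next : ∀ d : G.Dart, (next d).fst = d.fst
  cyclic : ∀ d e : G.Dart, d.fst = e.fst → next.SameCycle d e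

/-- Reversal of darts. -/
def reversal {V : Type} (G : SimpleGraph V) : Equiv.Perm G.Dart :=
  Function.Involutive.toPerm Dart.symm Dart.symm_involutive

/-- The face permutation: run along the dart `d`, then leave its end vertex by the dart that
follows the reverse of `d` in the rotation. Its orbits are the facial walks. -/
def Rotation.face {V : Type} {G : SimpleGraph V} (R : Rotation G) : Equiv.Perm G.Dart :=
  (reversal G).trans R.next

/-- The number of faces: the orbits of the face permutation, and one face for every isolated
vertex. -/
noncomputable def Rotation.faces {V : Type} {G : SimpleGraph V} (R : Rotation G) : ℕ :=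
  Nat.card (Quotient (Equiv.Perm.SameCycle.setoid R.face)) +
    Nat.card {v : V // ∀ w, ¬ G.Adj v w}

/-- The genus of the embedding (the sum of the genera over the components of `G`) is at most `g`:
`V - E + F ≥ 2 c - 2 g`, with `c` the number of components of `G`. -/
def Rotation.GenusAtMost {V : Type} {G : SimpleGraph V} (R : Rotation G) (g : ℕ) : Prop :=
  2 * Nat.card G.ConnectedComponent + Nat.card G.edgeSet ≤ Nat.card V + R.faces + 2 * g

/-- Every facial walk has even length. -/
def Rotation.EvenFaced {V : Type} {G : SimpleGraph V} (R : Rotation G) : Prop :=
  ∀ d : G.Dart, Even (Function.minimalPeriod R.face d)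

/-- The closed walk `w` is the facial walk that starts with some dart `d`: it runs once through the
orbit of `d` under the face permutation. -/
def Rotation.IsFacial {V : Type} {G : SimpleGraph V} (R : Rotation G) {v : V}
    (w : G.Walk v v) : Prop :=
  ∃ d : G.Dart,
    w.darts = (List.range (Function.minimalPeriod R.face d)).map (fun i => R.face^[i] d)

/-- Homotopy (with fixed ends) of walks in the surface: the congruence generated by the removal
of a spur (an edge run forth and back at once) and of a facial walk. -/
inductive Rotation.Homotopic {V : Type} {G : SimpleGraph V} (R : Rotation G) :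
    ∀ {u v : V}, G.Walk u v → G.Walk u v → Prop
  | refl {u v : V} (p : G.Walk u v) : Homotopic R p p
  | symm {u v : V} {p q : G.Walk u v} : Homotopic R p q → Homotopic R q p
  | trans {u v : V} {p q r : G.Walk u v} :
      Homotopic R p q → Homotopic R q r → Homotopic R p r
  | append {u v w : V} {p p' : G.Walk u v} {q q' : G.Walk v w} :
      Homotopic R p p' → Homotopic R q q' → Homotopic R (p.append q) (p'.append q')
  | spur {u v : V} (h : G.Adj u v) :
      Homotopic R (Walk.cons h (Walk.cons h.symm Walk.nil)) Walk.nil
  | facial {v : V} (w : G.Walk v v) : R.IsFacial w → Homotopic R w Walk.nil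

/-- A closed walk is contractible if it is homotopic to the trivial walk. -/
def Rotation.Contractible {V : Type} {G : SimpleGraph V} (R : Rotation G) {v : V}
    (w : G.Walk v v) : Prop :=
  R.Homotopic w Walk.nil

/-- `G` is `k`-list colourable: for all lists of size at least `k` there is a proper colouring
from the lists. -/
def ListColourable {V : Type} (G : SimpleGraph V) (k : ℕ) : Prop :=
  ∀ L : V → Finset ℕ, (∀ v, k ≤ (L v).card) →
    ∃ f : V → ℕ, (∀ v, f v ∈ L v) ∧ ∀ u v, G.Adj u v → f u ≠ f v

end Pool.Agent.TH456.EF
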