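import Pool.Agent.TH456.EF.Core

/-!
# The face space modulo 2 of an embedded graph
-/

namespace Pool.Agent.TH456.EF

open SimpleGraph Finset

variable {V : Type} [Fintype V] [DecidableEq V] {G : SimpleGraph V} [DecidableRel G.Adj]

omit [Fintype V] [DecidableEq V] [DecidableRel G.Adj] in
theorem face_symm (R : Rotation G) (d : G.Dart) : R.face d.symm = R.next d := by
  simp [Rotation.face, reversal, Function.Involutive.toPerm]

omit [Fintype V] [DecidableEq V] [DecidableRel G.Adj] in
theorem next_eq (R : Rotation G) (d : G.Dart) : R.next d = R.face d.symm := (face_symm R d).symm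

/-- The space spanned by the boundaries of the faces. -/
def B (R : Rotation G) : Submodule (ZMod 2) (G.edgeSet → ZMod 2) where
  carrier := {z | ∃ x : G.Dart → ZMod 2, (∀ d, x (R.face d) = x d) ∧ foldm x = z}
  add_mem' := by
    rintro z z' ⟨x, hx, rfl⟩ ⟨x', hx', rfl⟩
    exact ⟨x + x', fun d => by simp [hx, hx'], map_add _ _ _⟩
  zero_mem' := ⟨0, fun _ => rfl, map_zero _⟩
  smul_mem' := by
    rintro c z ⟨x, hx, rfl⟩
    exact ⟨c • x, fun d => by simp [hx], map_smul _ _ _⟩

theorem mem_B {R : Rotation G} {z : G.edgeSet → ZMod 2} :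
    z ∈ B R ↔ ∃ x : G.Dart → ZMod 2, (∀ d, x (R.face d) = x d) ∧ fold x = z := Iff.rfl

theorem B_le_Z (R : Rotation G) : B R ≤ Z G := by
  rintro z ⟨x, hx, rfl⟩
  rw [mem_Z]
  funext v
  rw [bdm_apply]
  have h1 : ∀ d : G.Dart, (if d.fst = v then foldm x (ed d) else 0)
      = (if d.fst = v then x d else 0)
        + (if (R.next d).fst = v then x (R.next d) else 0) := by
    intro d
    rw [R.fst_next]
    split_ifs
    · change fold x (ed d) = _
      rw [fold_ed, ← face_symm, hx]
    · simp
  rw [Finset.sum_congr rfl (fun d _ => h1 d), Finset.sum_add_distrib,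
    Equiv.sum_comp R.next (fun d => if d.fst = v then x d else 0)]
  exact CharTwo.add_self_eq_zero _

omit [Fintype V] [DecidableEq V] [DecidableRel G.Adj] in
/-- A function of the darts that is invariant under the face permutation and under reversal is
constant on components. -/
theorem const_of_inv {R : Rotation G} {x : G.Dart → ZMod 2} (hx : ∀ d, x (R.face d) = x d)
    (hs : ∀ d : G.Dart, x d.symm = x d) {u v : V} (p : G.Walk u v) :
    ∀ d e : G.Dart, d.fst = u → e.fst = v → x d = x e := by
  have hn : ∀ d, x (R.next d) = x d := by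
    intro d
    rw [next_eq, hx, hs]
  have hz : ∀ (k : ℤ) (d : G.Dart), x ((R.next ^ k) d) = x d := by
    intro k
    induction k with
    | zero => intro d; simp
    | succ k ih =>
      intro d
      rw [zpow_add_one, Equiv.Perm.mul_apply, ih, hn]
    | pred k ih =>
      intro d
      rw [zpow_sub_one, Equiv.Perm.mul_apply, ih]
      have h1 := hn (R.next⁻¹ d)
      have h2 : R.next (R.next⁻¹ d) = d := by simp
      rw [h2] at h1
      exact h1.symm
  have hsame : ∀ d e : G.Dart, d.fst = e.fst → x d = x e := by
    intro d e h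
    obtain ⟨k, hk⟩ := R.cyclic d e h
    rw [← hk, hz]
  induction p with
  | nil =>
    intro d e hd he
    exact hsame d e (hd.trans he.symm)
  | @cons u w v h p ih =>
    intro d e hd he
    have h1 : x d = x (⟨(u, w), h⟩ : G.Dart) := hsame _ _ hd
    rw [h1, ← hs]
    exact ih _ e rfl he

/-- The components that contain an edge. -/
abbrev NI (G : SimpleGraph V) : Type :=
  {C : G.ConnectedComponent // ∃ d : G.Dart, G.connectedComponentMk d.fst = C}

omit [DecidableEq V] [DecidableRel G.Adj] in
theorem card_NI_add :
    Nat.card (NI G) + Nat.card {v : V // ∀ w, ¬ G.Adj v w} ≤ Nat.card G.ConnectedComponent := by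
  classical
  rw [← Nat.card_sum]
  apply Nat.card_le_card_of_injective
    (fun s : NI G ⊕ {v : V // ∀ w, ¬ G.Adj v w} =>
      Sum.elim (fun C => C.1) (fun v => G.connectedComponentMk v.1) s)
  have hiso : ∀ v : V, (∀ w, ¬ G.Adj v w) → ∀ w, G.Reachable v w → w = v := by
    rintro v hv w ⟨p⟩
    cases p with
    | nil => rfl
    | cons h p => exact absurd h (hv _)
  rintro (⟨C, hC⟩ | ⟨v, hv⟩) (⟨C', hC'⟩ | ⟨v', hv'⟩) h
  · simp only [Sum.elim_inl] at h
    subst h; rfl
  · simp only [Sum.elim_inl, Sum.elim_inr] at h
    obtain ⟨d, hd⟩ := hC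
    exfalso
    have h1 : G.Reachable v' d.fst := ConnectedComponent.exact (h.symm.trans hd.symm)
    have h2 := hiso v' hv' _ h1
    have h3 := d.adj
    rw [h2] at h3
    exact hv' _ h3
  · simp only [Sum.elim_inl, Sum.elim_inr] at h
    obtain ⟨d, hd⟩ := hC'
    exfalso
    have h1 : G.Reachable v d.fst := ConnectedComponent.exact (h.trans hd.symm)
    have h2 := hiso v hv _ h1
    have h3 := d.adj
    rw [h2] at h3
    exact hv _ h3
  · simp only [Sum.elim_inr] at h
    have h1 : G.Reachable v v' := ConnectedComponent.exact h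
    have h2 := hiso v hv _ h1
    subst h2; rfl

theorem finrank_B_ge (R : Rotation G) :
    Nat.card (Quotient (Equiv.Perm.SameCycle.setoid R.face))
      ≤ Module.finrank (ZMod 2) (B R) + Nat.card (NI G) := by
  classical
  set Φ := Quotient (Equiv.Perm.SameCycle.setoid R.face) with hΦ
  have : Fintype Φ := Fintype.ofFinite _
  have : Fintype (NI G) := Fintype.ofFinite _
  let q : G.Dart → Φ := Quotient.mk _
  have hq : ∀ d, q (R.face d) = q d := by
    intro d
    apply Quotient.sound
    change R.face.SameCycle (R.face d) d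
    rw [Equiv.Perm.sameCycle_apply_left]
  let P : (Φ → ZMod 2) →ₗ[ZMod 2] (G.edgeSet → ZMod 2) :=
    foldm ∘ₗ (LinearMap.funLeft (ZMod 2) (ZMod 2) q)
  have hP : ∀ y, P y = fold (fun d => y (q d)) := fun y => rfl
  have hrange : LinearMap.range P ≤ B R := by
    rintro z ⟨y, rfl⟩
    exact ⟨fun d => y (q d), fun d => congrArg y (hq d), rfl⟩
  have h1 := LinearMap.finrank_range_add_finrank_ker P
  have h2 : Module.finrank (ZMod 2) (LinearMap.range P) ≤ Module.finrank (ZMod 2) (B R) :=
    Submodule.finrank_mono hrange
  have h3 : Module.finrank (ZMod 2) (LinearMap.ker P) ≤ Nat.card (NI G) := by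
    rw [Nat.card_eq_fintype_card]
    let T : LinearMap.ker P →ₗ[ZMod 2] (NI G → ZMod 2) :=
      { toFun := fun y C => y.1 (q C.2.choose)
        map_add' := fun f g => rfl
        map_smul' := fun c f => rfl }
    have hT : Function.Injective T := by
      rw [← LinearMap.ker_eq_bot, LinearMap.ker_eq_bot']
      rintro ⟨y, hy⟩ h
      have hs : ∀ d : G.Dart, y (q d.symm) = y (q d) := by
        intro d
        have h1 : P y = 0 := hy
        rw [hP] at h1
        have h2 := congrFun h1 (ed d)
        rw [fold_ed] at h2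
        exact (CharTwo.add_eq_zero.mp h2).symm
      ext φ
      obtain ⟨d, rfl⟩ : ∃ d, q d = φ := Quotient.exists_rep φ
      let C : NI G := ⟨G.connectedComponentMk d.fst, d, rfl⟩
      have h3 := congrFun h C
      simp only [T, LinearMap.coe_mk, AddHom.coe_mk, Pi.zero_apply] at h3
      have h4 : G.connectedComponentMk C.2.choose.fst = G.connectedComponentMk d.fst :=
        C.2.choose_spec
      obtain ⟨p⟩ := ConnectedComponent.exact h4
      have h5 := const_of_inv (x := fun d => y (q d)) (R := R) (fun d => congrArg y (hq d)) hs p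
        C.2.choose d rfl rfl
      have h6 : y (q C.2.choose) = y (q d) := h5
      rw [h6] at h3
      simpa using h3
    have := LinearMap.finrank_le_finrank_of_injective hT
    simpa using this
  have h4 : Module.finrank (ZMod 2) (Φ → ZMod 2) = Nat.card Φ := by
    rw [Nat.card_eq_fintype_card]; simp
  omega

/-- The dimension of the first homology group is at most twice the genus. -/
theorem finrank_Z_le_B (R : Rotation G) {g : ℕ} (hg : R.GenusAtMost g) :
    Module.finrank (ZMod 2) (Z G) ≤ Module.finrank (ZMod 2) (B R) + 2 * g := by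
  have h1 := finrank_Z_le (G := G)
  have h2 := finrank_B_ge R
  have h3 := card_NI_add (G := G)
  unfold Rotation.GenusAtMost Rotation.faces at hg
  rw [Nat.card_eq_fintype_card (α := V), Nat.card_eq_fintype_card (α := G.edgeSet)] at hg
  omega

end Pool.Agent.TH456.EF
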