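import Pool.Agent.TH456.EF.Hom

/-!
# The cycle space is generated by cycles
-/

namespace Pool.Agent.TH456.EF

open SimpleGraph Finset

set_option linter.unusedSectionVars false

variable {V : Type} [Fintype V] [DecidableEq V] {G : SimpleGraph V} [DecidableRel G.Adj]

theorem ch_nodup {l : List G.Dart} (hl : (l.map ed).Nodup) (e : G.edgeSet) :
    ch l e = if e ∈ l.map ed then 1 else 0 := by
  induction l with
  | nil => simp
  | cons d l ih =>
    rw [List.map_cons, List.nodup_cons] at hl
    rw [ch_cons, Pi.add_apply, ih hl.2, Pi.single_apply, List.map_cons]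
    by_cases h : e = ed d
    · subst h
      simp [hl.1]
    · simp [h]

/-- The graph of the edges in the support of a chain. -/
def suppG (z : G.edgeSet → ZMod 2) : SimpleGraph V where
  Adj a b := ∃ h : G.Adj a b, z (ed ⟨(a, b), h⟩) ≠ 0
  symm := ⟨by
    rintro a b ⟨h, hz⟩
    refine ⟨h.symm, ?_⟩
    have : ed (⟨(b, a), h.symm⟩ : G.Dart) = ed (⟨(a, b), h⟩ : G.Dart) :=
      ed_symm (⟨(a, b), h⟩ : G.Dart)
    rw [this]; exact hz⟩
  loopless := ⟨fun a h => G.loopless.irrefl a h.1⟩

theorem suppG_le (z : G.edgeSet → ZMod 2) : suppG z ≤ G := fun _ _ h => h.1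

theorem zmod2_ne {a : ZMod 2} (h : a ≠ 0) : a = 1 := by
  revert a; decide

theorem reach_of_mem_Z {z : G.edgeSet → ZMod 2} (hz : z ∈ Z G) {d : G.Dart} (hd : z (ed d) ≠ 0) :
    ((suppG z).deleteEdges {s(d.fst, d.snd)}).Reachable d.fst d.snd := by
  classical
  by_contra hcon
  set Γ := (suppG z).deleteEdges {s(d.fst, d.snd)} with hΓ
  let f : V → ZMod 2 := fun w => if Γ.Reachable d.fst w then 1 else 0
  have h1 := pairing f z
  have h2 : bdm z = 0 := hz
  rw [h2] at h1
  simp only [Pi.zero_apply, mul_zero, Finset.sum_const_zero] at h1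
  have h3 : ∑ e, fold (fun d : G.Dart => f d.fst) e * z e = 1 := by
    rw [Finset.sum_eq_single (ed d)]
    · rw [fold_ed]
      have e1 : f d.fst = 1 := if_pos (Reachable.refl _)
      have e2 : f d.symm.fst = 0 := if_neg hcon
      rw [e1, e2, zmod2_ne hd]
      decide
    · intro e _ hne
      obtain ⟨d', rfl⟩ := exists_ed e
      by_cases hz0 : z (ed d') = 0
      · rw [hz0, mul_zero]
      · rw [fold_ed]
        have hadj : Γ.Adj d'.fst d'.snd := by
          rw [hΓ, deleteEdges_adj]
          refine ⟨⟨d'.adj, hz0⟩, ?_⟩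
          intro h
          apply hne
          apply Subtype.ext
          exact h
        have e3 : f d'.fst = f d'.symm.fst := by
          have : Γ.Reachable d.fst d'.fst ↔ Γ.Reachable d.fst d'.snd :=
            ⟨fun h => h.trans hadj.reachable, fun h => h.trans hadj.symm.reachable⟩
          simp only [f]
          rw [show d'.symm.fst = d'.snd from rfl]
          simp only [this]
        rw [e3, CharTwo.add_self_eq_zero, zero_mul]
    · intro h
      exact absurd (mem_univ _) h
  rw [h3] at h1
  exact zero_ne_one h1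

theorem exists_cycle {z : G.edgeSet → ZMod 2} (hz : z ∈ Z G) {d : G.Dart} (hd : z (ed d) ≠ 0) :
    ∃ (v : V) (c : G.Walk v v), c.IsCycle ∧ (∀ d' ∈ c.darts, z (ed d') ≠ 0) ∧
      d.edge ∈ c.edges := by
  have h1 : (suppG z).Adj d.fst d.snd := ⟨d.adj, hd⟩
  obtain ⟨v, c, hc, hdc⟩ :=
    (adj_and_reachable_delete_edges_iff_exists_cycle).mp ⟨h1, reach_of_mem_Z hz hd⟩
  refine ⟨v, c.mapLe (suppG_le z), (Walk.isCycle_mapLe _).mpr hc, ?_, ?_⟩
  · intro d' hd'
    have h2 : d'.edge ∈ (c.mapLe (suppG_le z)).edges := List.mem_map_of_mem hd'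
    rw [Walk.edges_mapLe_eq_edges] at h2
    have h3 := c.edges_subset_edgeSet h2
    have h4 : (suppG z).Adj d'.fst d'.snd := h3
    exact h4.2
  · rw [Walk.edges_mapLe_eq_edges]
    exact hdc

theorem nodup_ed {v : V} {c : G.Walk v v} (hc : c.IsCycle) : (c.darts.map ed).Nodup := by
  have h1 : c.edges.Nodup := hc.isTrail.edges_nodup
  have h2 : c.edges = (c.darts.map ed).map Subtype.val := by
    rw [List.map_map]; rfl
  rw [h2] at h1
  exact List.Nodup.of_map _ h1

theorem gen (R : Rotation G) (U : Finset V)
    (hcyc : ∀ (v : V) (c : G.Walk v v), c.IsCycle → (∀ d ∈ c.darts, d ∈ hD G U) →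
      ch c.darts ∈ B R) :
    (Z G ⊓ SH G U : Submodule _ _) ≤ B R := by
  classical
  have key : ∀ (n : ℕ) (z : G.edgeSet → ZMod 2), (univ.filter fun e => z e ≠ 0).card = n →
      z ∈ Z G → z ∈ SH G U → z ∈ B R := by
    intro n
    induction n using Nat.strong_induction_on with
    | _ n ih =>
      intro z hn hzZ hzS
      by_cases h0 : z = 0
      · rw [h0]; exact (B R).zero_mem
      · obtain ⟨e, he⟩ : ∃ e, z e ≠ 0 := by
          by_contra hcon
          push Not at hcon
          exact h0 (funext hcon)
        obtain ⟨d, rfl⟩ := exists_ed e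
        obtain ⟨v, c, hc, hcz, hdc⟩ := exists_cycle hzZ he
        have hcU : ∀ d' ∈ c.darts, d' ∈ hD G U := by
          intro d' hd'
          by_contra hcon
          exact hcz d' hd' (hzS _ (fun h => hcon (ed_mem_hE.mp h)))
        have hB := hcyc v c hc hcU
        have hch : ∀ e, ch c.darts e = if e ∈ c.darts.map ed then 1 else 0 :=
          ch_nodup (nodup_ed hc)
        have hmem : ed d ∈ c.darts.map ed := by
          rw [Walk.edges, List.mem_map] at hdc
          obtain ⟨d', hd', h⟩ := hdc
          rw [List.mem_map]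
          exact ⟨d', hd', Subtype.ext h⟩
        have hsupp : ∀ e, z e = 0 → ch c.darts e = 0 := by
          intro e hze
          rw [hch, if_neg]
          intro h
          rw [List.mem_map] at h
          obtain ⟨d', hd', rfl⟩ := h
          exact hcz d' hd' hze
        have hlt : (univ.filter fun e => (z + ch c.darts) e ≠ 0).card < n := by
          rw [← hn]
          apply Finset.card_lt_card
          rw [Finset.ssubset_iff_of_subset]
          · refine ⟨ed d, by simpa using he, ?_⟩
            simp only [mem_filter, mem_univ, true_and, Pi.add_apply, not_not]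
            rw [zmod2_ne he, hch, if_pos hmem]
            decide
          · intro e
            simp only [mem_filter, mem_univ, true_and, Pi.add_apply]
            intro h h'
            exact h (by rw [h', hsupp e h', add_zero])
        have h2 : z + ch c.darts ∈ B R := by
          apply ih _ hlt _ rfl
          · exact (Z G).add_mem hzZ (B_le_Z R hB)
          · intro e he'
            rw [Pi.add_apply, hzS e he', hsupp e (hzS e he'), add_zero]
        have h3 : z = (z + ch c.darts) + ch c.darts := by
          funext e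
          simp only [Pi.add_apply]
          rw [add_assoc, CharTwo.add_self_eq_zero, add_zero]
        rw [h3]
        exact (B R).add_mem h2 hB
  rintro z ⟨hz1, hz2⟩
  exact key _ z rfl hz1 hz2

end Pool.Agent.TH456.EF
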