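import Pool.Agent.TH456.EF.Sub

/-!
# Contractible walks bound modulo 2, and have even length in an even-faced graph
-/

namespace Pool.Agent.TH456.EF

open SimpleGraph Finset

set_option linter.unusedSectionVars false

variable {V : Type} [Fintype V] [DecidableEq V] {G : SimpleGraph V} [DecidableRel G.Adj]

/-- The chain modulo 2 of a list of darts. -/
def ch (l : List G.Dart) : G.edgeSet → ZMod 2 := (l.map (fun d => Pi.single (ed d) 1)).sum

@[simp] theorem ch_nil : ch ([] : List G.Dart) = 0 := rfl

@[simp] theorem ch_cons (d : G.Dart) (l : List G.Dart) :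
    ch (d :: l) = Pi.single (ed d) 1 + ch l := by
  simp [ch]

@[simp] theorem ch_append (l l' : List G.Dart) : ch (l ++ l') = ch l + ch l' := by
  simp [ch]

/-- The orbit of a dart under the face permutation. -/
noncomputable def orb (R : Rotation G) (d : G.Dart) : Finset G.Dart :=
  (range (Function.minimalPeriod R.face d)).image (fun i => R.face^[i] d)

theorem minPer_pos (R : Rotation G) (d : G.Dart) : 0 < Function.minimalPeriod R.face d :=
  Function.minimalPeriod_pos_of_mem_periodicPts (R.face.injective.mem_periodicPts d)

theorem orb_injOn (R : Rotation G) (d : G.Dart) :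
    Set.InjOn (fun i => R.face^[i] d) (range (Function.minimalPeriod R.face d) : Set ℕ) := by
  intro i hi j hj h
  have := Function.iterate_injOn_Iio_minimalPeriod (f := R.face) (x := d)
  apply this (by simpa using hi) (by simpa using hj) h

theorem card_orb (R : Rotation G) (d : G.Dart) :
    (orb R d).card = Function.minimalPeriod R.face d := by
  unfold orb
  rw [card_image_of_injOn (orb_injOn R d), card_range]

theorem self_mem_orb (R : Rotation G) (d : G.Dart) : d ∈ orb R d := by
  unfold orb
  rw [mem_image]
  exact ⟨0, by simpa using minPer_pos R d, rfl⟩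

theorem face_mem_orb (R : Rotation G) (d d' : G.Dart) : R.face d' ∈ orb R d ↔ d' ∈ orb R d := by
  have hk := minPer_pos R d
  have hper : R.face^[Function.minimalPeriod R.face d] d = d :=
    Function.iterate_minimalPeriod
  unfold orb
  simp only [mem_image, mem_range]
  constructor
  · rintro ⟨i, hi, h⟩
    rcases Nat.eq_zero_or_pos i with rfl | hi0
    · refine ⟨Function.minimalPeriod R.face d - 1, by omega, ?_⟩
      apply R.face.injective
      rw [← Function.iterate_succ_apply' (f := R.face)]
      have h3 : (Function.minimalPeriod R.face d - 1).succ = Function.minimalPeriod R.face d := by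
        omega
      rw [h3, hper]
      exact h
    · obtain ⟨j, rfl⟩ : ∃ j, i = j + 1 := ⟨i - 1, by omega⟩
      refine ⟨j, by omega, ?_⟩
      apply R.face.injective
      rw [← Function.iterate_succ_apply' (f := R.face)]
      exact h
  · rintro ⟨i, hi, rfl⟩
    by_cases h : i + 1 < Function.minimalPeriod R.face d
    · exact ⟨i + 1, h, Function.iterate_succ_apply' _ _ _⟩
    · have h2 : i + 1 = Function.minimalPeriod R.face d := by omega
      refine ⟨0, hk, ?_⟩
      rw [← Function.iterate_succ_apply' (f := R.face)]
      have h3 : i.succ = Function.minimalPeriod R.face d := h2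
      rw [h3, hper]
      rfl

theorem ch_apply (l : List G.Dart) (e : G.edgeSet) :
    ch l e = (l.map (fun d => if ed d = e then (1 : ZMod 2) else 0)).sum := by
  induction l with
  | nil => simp
  | cons d l ih =>
    rw [ch_cons, Pi.add_apply, ih, List.map_cons, List.sum_cons, Pi.single_apply]
    simp [eq_comm]

theorem sum_list_range (f : ℕ → ZMod 2) (n : ℕ) :
    ((List.range n).map f).sum = ∑ i ∈ range n, f i := by
  induction n with
  | zero => simp
  | succ n ih => rw [List.range_succ, List.map_append, List.sum_append, ih, sum_range_succ]; simp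

theorem ch_facial (R : Rotation G) (d : G.Dart) :
    ch ((List.range (Function.minimalPeriod R.face d)).map (fun i => R.face^[i] d)) ∈ B R := by
  rw [mem_B]
  refine ⟨fun d' => if d' ∈ orb R d then 1 else 0, fun d' => by simp [face_mem_orb], ?_⟩
  funext e
  rw [ch_apply, List.map_map]
  change _ = (List.map (fun i => if ed (R.face^[i] d) = e then (1 : ZMod 2) else 0)
      (List.range (Function.minimalPeriod R.face d))).sum
  rw [sum_list_range]
  have h2 : ∑ i ∈ range (Function.minimalPeriod R.face d),
      (if ed (R.face^[i] d) = e then (1 : ZMod 2) else 0)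
      = ∑ d' ∈ orb R d, if ed d' = e then (1 : ZMod 2) else 0 := by
    unfold orb
    rw [sum_image (orb_injOn R d)]
  rw [h2]
  unfold fold
  rw [← Finset.sum_filter_add_sum_filter_not univ (fun d' => d' ∈ orb R d)]
  have h3 : ∑ d' ∈ univ.filter (fun d' => ¬ d' ∈ orb R d),
      (if ed d' = e then (if d' ∈ orb R d then (1 : ZMod 2) else 0) else 0) = 0 := by
    apply Finset.sum_eq_zero
    intro d' hd'
    rw [mem_filter] at hd'
    simp [hd'.2]
  rw [h3, add_zero]
  have h4 : univ.filter (fun d' => d' ∈ orb R d) = orb R d := by
    ext d'; simp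
  rw [h4]
  apply Finset.sum_congr rfl
  intro d' hd'
  simp [hd']

theorem ch_homotopic (R : Rotation G) {u v : V} {p q : G.Walk u v} (h : R.Homotopic p q) :
    ch p.darts + ch q.darts ∈ B R := by
  induction h with
  | refl p =>
    have : ch p.darts + ch p.darts = 0 := by
      funext e; exact CharTwo.add_self_eq_zero _
    rw [this]; exact (B R).zero_mem
  | symm _ ih => rwa [add_comm]
  | @trans u v p q r _ _ ih1 ih2 =>
    have : ch p.darts + ch r.darts
        = (ch p.darts + ch q.darts) + (ch q.darts + ch r.darts) := by
      funext e
      simp only [Pi.add_apply]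
      have := CharTwo.add_self_eq_zero (ch q.darts e)
      linear_combination -this
    rw [this]
    exact (B R).add_mem ih1 ih2
  | @append u v w p p' q q' _ _ ih1 ih2 =>
    rw [Walk.darts_append, Walk.darts_append, ch_append, ch_append]
    have : ch p.darts + ch q.darts + (ch p'.darts + ch q'.darts)
        = (ch p.darts + ch p'.darts) + (ch q.darts + ch q'.darts) := by ring
    rw [this]
    exact (B R).add_mem ih1 ih2
  | @spur u v h =>
    have h1 : ed (⟨(v, u), h.symm⟩ : G.Dart) = ed (⟨(u, v), h⟩ : G.Dart) :=
      ed_symm (⟨(u, v), h⟩ : G.Dart)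
    have : ch (Walk.cons h (Walk.cons h.symm Walk.nil)).darts + ch (Walk.nil : G.Walk u u).darts
        = 0 := by
      simp only [Walk.darts_cons, Walk.darts_nil, ch_cons, ch_nil, add_zero]
      rw [h1]
      funext e
      exact CharTwo.add_self_eq_zero _
    rw [this]; exact (B R).zero_mem
  | @facial v w hw =>
    obtain ⟨d, hd⟩ := hw
    rw [hd]
    simp only [Walk.darts_nil, ch_nil, add_zero]
    exact ch_facial R d

theorem ch_contractible (R : Rotation G) {v : V} {w : G.Walk v v} (h : R.Contractible w) :
    ch w.darts ∈ B R := by
  simpa using ch_homotopic R h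

/-! ### Parity -/

/-- The sum of the coefficients of a chain. -/
def eps (z : G.edgeSet → ZMod 2) : ZMod 2 := ∑ e, z e

theorem eps_ch (l : List G.Dart) : eps (ch l) = l.length := by
  induction l with
  | nil => simp [eps]
  | cons d l ih =>
    have : eps (ch (d :: l)) = 1 + eps (ch l) := by
      unfold eps
      simp [Finset.sum_add_distrib]
    rw [this, ih, List.length_cons]
    push_cast
    ring

theorem sum_inv (R : Rotation G) (hR : R.EvenFaced) {x : G.Dart → ZMod 2}
    (hx : ∀ d, x (R.face d) = x d) : ∑ d, x d = 0 := by
  classical
  have hiter : ∀ (i : ℕ) (d : G.Dart), x (R.face^[i] d) = x d := by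
    intro i
    induction i with
    | zero => intro d; rfl
    | succ i ih => intro d; rw [Function.iterate_succ_apply', hx, ih]
  -- orbits partition the darts
  have horb : ∀ d d', d' ∈ orb R d → orb R d' = orb R d := by
    intro d d' h
    have hsub : ∀ a b : G.Dart, b ∈ orb R a → orb R b ⊆ orb R a := by
      intro a b hb c hc
      unfold orb at hc
      rw [mem_image] at hc
      obtain ⟨i, _, rfl⟩ := hc
      induction i with
      | zero => exact hb
      | succ i ih =>
        rw [Function.iterate_succ_apply', face_mem_orb]
        by_cases hi : i ∈ range (Function.minimalPeriod R.face b)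
        · exact ih hi
        · have : i + 1 ∈ range (Function.minimalPeriod R.face b) := by assumption
          rw [mem_range] at this hi
          omega
    apply Finset.eq_of_subset_of_card_le (hsub d d' h)
    have hinj : ∀ a b : G.Dart, b ∈ orb R a → a ∈ orb R b := by
      intro a b hb
      unfold orb at hb
      rw [mem_image] at hb
      obtain ⟨i, hi, rfl⟩ := hb
      rw [mem_range] at hi
      have hself := self_mem_orb R (R.face^[i] a)
      -- go back i steps
      have hback : ∀ (j : ℕ) (c : G.Dart), R.face^[j] c ∈ orb R (R.face^[i] a) →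
          c ∈ orb R (R.face^[i] a) := by
        intro j
        induction j with
        | zero => intro c hc; exact hc
        | succ j ih =>
          intro c hc
          rw [Function.iterate_succ_apply'] at hc
          exact ih c ((face_mem_orb R _ _).mp hc)
      exact hback i a hself
    exact Finset.card_le_card (hsub d' d (hinj d d' h))
  have h1 := Finset.sum_fiberwise_of_maps_to (s := (univ : Finset G.Dart))
    (t := univ.image (orb R)) (g := orb R) (fun d _ => mem_image_of_mem _ (mem_univ d)) x
  rw [← h1]
  apply Finset.sum_eq_zero
  intro O hO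
  rw [mem_image] at hO
  obtain ⟨d, _, rfl⟩ := hO
  have h2 : univ.filter (fun d' => orb R d' = orb R d) = orb R d := by
    ext d'
    simp only [mem_filter, mem_univ, true_and]
    constructor
    · intro h
      rw [← h]; exact self_mem_orb R d'
    · exact horb d d'
  rw [h2]
  have h3 : ∀ d' ∈ orb R d, x d' = x d := by
    intro d' h
    unfold orb at h
    rw [mem_image] at h
    obtain ⟨i, _, rfl⟩ := h
    exact hiter i d
  rw [Finset.sum_congr rfl h3, Finset.sum_const, card_orb]
  obtain ⟨m, hm⟩ := hR d
  rw [hm, add_smul]
  exact CharTwo.add_self_eq_zero _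

theorem eps_fold (x : G.Dart → ZMod 2) : eps (fold x) = ∑ d, x d := by
  unfold eps fold
  rw [Finset.sum_comm]
  apply Finset.sum_congr rfl
  intro d _
  simp

theorem eps_B (R : Rotation G) (hR : R.EvenFaced) {z : G.edgeSet → ZMod 2} (hz : z ∈ B R) :
    eps z = 0 := by
  obtain ⟨x, hx, rfl⟩ := hz
  change eps (fold x) = 0
  rw [eps_fold, sum_inv R hR hx]

theorem even_of_contractible (R : Rotation G) (hR : R.EvenFaced) {v : V} {w : G.Walk v v}
    (h : R.Contractible w) : Even w.length := by
  have h1 := eps_B R hR (ch_contractible R h)
  rw [eps_ch, Walk.length_darts] at h1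
  exact (ZMod.natCast_eq_zero_iff_even).mp h1

end Pool.Agent.TH456.EF
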