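import Pool.Agent.TH456.EF.Gen
import Pool.Agent.TH456.EF.Col

/-!
# Counting
-/

namespace Pool.Agent.TH456.EF

open SimpleGraph Finset

set_option linter.unusedSectionVars false

variable {V : Type} [Fintype V] [DecidableEq V] {G : SimpleGraph V} [DecidableRel G.Adj]

theorem even_vertex {z : G.edgeSet → ZMod 2} (hz : z ∈ Z G) {d : G.Dart} (hd : z (ed d) ≠ 0) :
    ∃ d' : G.Dart, d'.fst = d.snd ∧ d' ≠ d.symm ∧ z (ed d') ≠ 0 := by
  classical
  by_contra hcon
  push Not at hcon
  have h1 : bdm z d.snd = 0 := by
    have : bdm z = 0 := hz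
    rw [this]; rfl
  rw [bdm_apply, Finset.sum_eq_single d.symm] at h1
  · rw [if_pos (show d.symm.fst = d.snd from rfl), ed_symm] at h1
    exact hd h1
  · intro d' _ hne
    split_ifs with h
    · exact hcon d' h hne
    · rfl
  · intro h; exact absurd (mem_univ _) h

/-- The indicator function of a region. -/
noncomputable def rx (R : Rotation G) (U : Finset V) (q : Reg R U) (d : G.Dart) : ZMod 2 :=
  open Classical in if reg R U d = q then 1 else 0

theorem rx_face (R : Rotation G) (U : Finset V) (q : Reg R U) (d : G.Dart) :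
    rx R U q (R.face d) = rx R U q d := by
  unfold rx
  rw [reg_face]

theorem fold_rx_mem_B (R : Rotation G) (U : Finset V) (q : Reg R U) : fold (rx R U q) ∈ B R :=
  ⟨rx R U q, rx_face R U q, rfl⟩

theorem fold_rx_mem_SH (R : Rotation G) (U : Finset V) (q : Reg R U) :
    fold (rx R U q) ∈ SH G U := by
  intro e he
  obtain ⟨d, rfl⟩ := exists_ed e
  rw [ed_mem_hE] at he
  rw [fold_ed]
  have : rx R U q d.symm = rx R U q d := by
    unfold rx
    rw [reg_symm R U he]
  rw [this, CharTwo.add_self_eq_zero]

/-- The darts of the subgraph on the boundary of a region. -/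
noncomputable def rd (R : Rotation G) (U : Finset V) (q : Reg R U) : Finset G.Dart :=
  open Classical in (hD G U).filter fun d => reg R U d = q

theorem mem_rd {R : Rotation G} {U : Finset V} {q : Reg R U} {d : G.Dart} :
    d ∈ rd R U q ↔ d ∈ hD G U ∧ reg R U d = q := by
  classical
  unfold rd
  rw [mem_filter]

theorem exists_side {R : Rotation G} {U : Finset V} {q : Reg R U} {d : G.Dart}
    (h : fold (rx R U q) (ed d) ≠ 0) : ∃ d' ∈ rd R U q, ed d' = ed d := by
  classical
  have hd : d ∈ hD G U := by
    by_contra hcon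
    exact h (fold_rx_mem_SH R U q _ (fun h => hcon (ed_mem_hE.mp h)))
  rw [fold_ed] at h
  by_cases h1 : reg R U d = q
  · exact ⟨d, mem_rd.mpr ⟨hd, h1⟩, rfl⟩
  · by_cases h2 : reg R U d.symm = q
    · exact ⟨d.symm, mem_rd.mpr ⟨symm_mem_hD.mpr hd, h2⟩, ed_symm d⟩
    · exfalso
      apply h
      unfold rx
      rw [if_neg h1, if_neg h2, add_zero]

theorem card_fst (U : Finset V) {v : V} (hv : v ∈ U) :
    ((hD G U).filter fun d => d.fst = v).card = dgU G U v := by
  classical
  unfold dgU
  apply Finset.card_bij (fun d _ => d.snd)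
  · intro d hd
    rw [mem_filter, mem_hD] at hd
    rw [mem_filter]
    refine ⟨hd.1.2, ?_⟩
    rw [← hd.2]; exact d.adj
  · intro d hd d' hd' h
    rw [mem_filter] at hd hd'
    apply Dart.ext
    exact Prod.ext (hd.2.trans hd'.2.symm) h
  · intro w hw
    rw [mem_filter] at hw
    refine ⟨⟨(v, w), hw.2⟩, ?_, rfl⟩
    rw [mem_filter, mem_hD]
    exact ⟨⟨hv, hw.1⟩, rfl⟩

theorem card_snd (U : Finset V) {v : V} (hv : v ∈ U) :
    ((hD G U).filter fun d => d.snd = v).card = dgU G U v := by
  classical
  rw [← card_fst U hv]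
  apply Finset.card_bij (fun d _ => d.symm)
  · intro d hd
    rw [mem_filter] at hd ⊢
    exact ⟨symm_mem_hD.mpr hd.1, hd.2⟩
  · intro d _ d' _ h
    exact Dart.symm_involutive.injective h
  · intro d hd
    rw [mem_filter] at hd
    refine ⟨d.symm, ?_, Dart.symm_symm d⟩
    rw [mem_filter]
    exact ⟨symm_mem_hD.mpr hd.1, hd.2⟩

/-- The boundary of a region has at least four darts, and if it has only four, one of them is
incident with a vertex of degree at least five. -/
theorem region (R : Rotation G) {L : V → Finset ℕ} (hL : ∀ v, 4 ≤ (L v).card) {U : Finset V}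
    (hU : ¬ Col G L U) (hmin : ∀ W, W ⊂ U → Col G L W)
    (htri : ∀ a b c, G.Adj a b → G.Adj b c → ¬ G.Adj c a) {q : Reg R U}
    (hq : ∃ d ∈ hD G U, reg R U d = q) :
    4 ≤ (rd R U q).card ∧ ((rd R U q).card ≤ 4 →
      ∃ d ∈ rd R U q, 5 ≤ dgU G U d.fst ∨ 5 ≤ dgU G U d.snd) := by
  classical
  by_cases h0 : ∃ d : G.Dart, fold (rx R U q) (ed d) ≠ 0
  · obtain ⟨d1, h1⟩ := h0
    have hZ : fold (rx R U q) ∈ Z G := B_le_Z R (fold_rx_mem_B R U q)
    have hin : ∀ d : G.Dart, fold (rx R U q) (ed d) ≠ 0 → d.fst ∈ U ∧ d.snd ∈ U := by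
      intro d h
      rw [← mem_hD]
      by_contra hcon
      exact h (fold_rx_mem_SH R U q _ (fun h => hcon (ed_mem_hE.mp h)))
    obtain ⟨d2, f2, n2, h2⟩ := even_vertex hZ h1
    obtain ⟨d3, f3, n3, h3⟩ := even_vertex hZ h2
    obtain ⟨d4, f4, n4, h4⟩ := even_vertex hZ h3
    have a1 := d1.adj
    have a2 := d2.adj
    have a3 := d3.adj
    have a4 := d4.adj
    have ne2 : d2.snd ≠ d1.fst := by
      intro h
      apply n2
      apply Dart.ext
      exact Prod.ext f2 h
    have ne3 : d3.snd ≠ d2.fst := by
      intro h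
      apply n3
      apply Dart.ext
      exact Prod.ext f3 h
    have ne4 : d4.snd ≠ d3.fst := by
      intro h
      apply n4
      apply Dart.ext
      exact Prod.ext f4 h
    have ne5 : d3.snd ≠ d1.fst := by
      intro h
      rw [f2] at a2
      rw [f3, h] at a3
      exact htri _ _ _ a1 a2 a3
    have e12 : ed d1 ≠ ed d2 := by
      intro h
      rcases ed_eq.mp h with h | h
      · rw [← h] at f2; exact a1.ne f2
      · apply n2; rw [h]; exact (Dart.symm_symm d2).symm
    have e23 : ed d2 ≠ ed d3 := by
      intro h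
      rcases ed_eq.mp h with h | h
      · rw [← h] at f3; exact a2.ne f3
      · apply n3; rw [h]; exact (Dart.symm_symm d3).symm
    have e34 : ed d3 ≠ ed d4 := by
      intro h
      rcases ed_eq.mp h with h | h
      · rw [← h] at f4; exact a3.ne f4
      · apply n4; rw [h]; exact (Dart.symm_symm d4).symm
    have e13 : ed d1 ≠ ed d3 := by
      intro h
      rcases ed_eq.mp h with h | h
      · apply ne2; rw [h]; exact f3.symm
      · apply ne5; rw [h]; rfl
    have e24 : ed d2 ≠ ed d4 := by
      intro h
      rcases ed_eq.mp h with h | h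
      · apply ne3; rw [h]; exact f4.symm
      · have h5 : d2.snd = d4.fst := by rw [h]; rfl
        rw [f4, ← f3] at h5
        exact a3.ne h5
    have e14 : ed d1 ≠ ed d4 := by
      intro h
      rcases ed_eq.mp h with h | h
      · apply ne5; rw [h]; exact f4.symm
      · have h5 : d1.snd = d4.fst := by rw [h]; rfl
        rw [f4, ← f2] at h5
        exact ne3 h5.symm
    obtain ⟨s1, m1, g1⟩ := exists_side h1
    obtain ⟨s2, m2, g2⟩ := exists_side h2
    obtain ⟨s3, m3, g3⟩ := exists_side h3
    obtain ⟨s4, m4, g4⟩ := exists_side h4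
    have hsub : ({s1, s2, s3, s4} : Finset G.Dart) ⊆ rd R U q := by
      intro x hx
      simp only [mem_insert, mem_singleton] at hx
      rcases hx with rfl | rfl | rfl | rfl <;> assumption
    have k12 : s1 ≠ s2 := fun h => e12 (by rw [← g1, ← g2, h])
    have k13 : s1 ≠ s3 := fun h => e13 (by rw [← g1, ← g3, h])
    have k14 : s1 ≠ s4 := fun h => e14 (by rw [← g1, ← g4, h])
    have k23 : s2 ≠ s3 := fun h => e23 (by rw [← g2, ← g3, h])
    have k24 : s2 ≠ s4 := fun h => e24 (by rw [← g2, ← g4, h])
    have k34 : s3 ≠ s4 := fun h => e34 (by rw [← g3, ← g4, h])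
    have hcard : ({s1, s2, s3, s4} : Finset G.Dart).card = 4 := by
      rw [card_insert_of_notMem (by simp [k12, k13, k14]),
        card_insert_of_notMem (by simp [k23, k24]), card_pair k34]
    refine ⟨hcard ▸ Finset.card_le_card hsub, ?_⟩
    intro hle
    have heq : ({s1, s2, s3, s4} : Finset G.Dart) = rd R U q :=
      Finset.eq_of_subset_of_card_le hsub (by rw [hcard]; exact hle)
    -- the walk closes up
    have h1' : fold (rx R U q) (ed d1.symm) ≠ 0 := by rw [ed_symm]; exact h1
    obtain ⟨d0, f0, n0, h00⟩ := even_vertex hZ h1'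
    rw [Dart.symm_symm] at n0
    have f0' : d0.fst = d1.fst := f0
    obtain ⟨s0, m0, g0⟩ := exists_side h00
    rw [← heq] at m0
    simp only [mem_insert, mem_singleton] at m0
    have hclose : d4.snd = d1.fst := by
      rcases m0 with rfl | rfl | rfl | rfl
      · exfalso
        rw [g1] at g0
        rcases ed_eq.mp g0 with h | h
        · exact n0 h.symm
        · have h5 : d1.snd = d0.fst := by rw [h]; rfl
          rw [f0'] at h5
          exact a1.ne h5.symm
      · exfalso
        rw [g2] at g0
        rcases ed_eq.mp g0 with h | h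
        · have h5 : d2.fst = d0.fst := by rw [h]
          rw [f0', f2] at h5
          exact a1.ne h5.symm
        · have h5 : d2.snd = d0.fst := by rw [h]; rfl
          rw [f0'] at h5
          exact ne2 h5
      · exfalso
        rw [g3] at g0
        rcases ed_eq.mp g0 with h | h
        · have h5 : d3.fst = d0.fst := by rw [h]
          rw [f0', f3] at h5
          exact ne2 h5
        · have h5 : d3.snd = d0.fst := by rw [h]; rfl
          rw [f0'] at h5
          exact ne5 h5
      · rw [g4] at g0
        rcases ed_eq.mp g0 with h | h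
        · exfalso
          have h5 : d4.fst = d0.fst := by rw [h]
          rw [f0', f4] at h5
          exact ne5 h5
        · have h5 : d4.snd = d0.fst := by rw [h]; rfl
          rw [f0'] at h5
          exact h5
    rw [f2] at a2
    rw [f3] at a3
    rw [f4, hclose] at a4
    have hdeg := four_cycle_deg hL hU hmin (hin d1 h1).1 (hin d1 h1).2 (hin d2 h2).2 (hin d3 h3).2
      a1 a2 a3 a4 ne2.symm (by rw [← f2]; exact ne3.symm)
      (fun h => htri _ _ _ a1 a2 h.symm) (fun h => htri _ _ _ a2 a3 h.symm)
    have hend : ∀ {s d : G.Dart}, ed s = ed d → (5 ≤ dgU G U d.fst ∨ 5 ≤ dgU G U d.snd) →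
        (5 ≤ dgU G U s.fst ∨ 5 ≤ dgU G U s.snd) := by
      intro s d h h'
      rcases ed_eq.mp h with rfl | rfl
      · exact h'
      · exact h'.symm
    rcases hdeg with h | h | h | h
    · exact ⟨s1, m1, hend g1 (Or.inl h)⟩
    · exact ⟨s1, m1, hend g1 (Or.inr h)⟩
    · exact ⟨s2, m2, hend g2 (Or.inr h)⟩
    · exact ⟨s3, m3, hend g3 (Or.inr h)⟩
  · push Not at h0
    obtain ⟨d, hd, hdq⟩ := hq
    have hs : ∀ d : G.Dart, rx R U q d.symm = rx R U q d := by
      intro d
      have := h0 d
      rw [fold_ed] at this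
      exact (CharTwo.add_eq_zero.mp this).symm
    have hone : ∀ d : G.Dart, rx R U q d = 1 ↔ reg R U d = q := by
      intro d
      unfold rx
      split_ifs with h
      · simp [h]
      · simp [h]
    have hall : ∀ e : G.Dart, d.fst = e.fst → reg R U e = q := by
      intro e he
      rw [← hone]
      have := const_of_inv (rx_face R U q) hs (Walk.nil : G.Walk d.fst d.fst) d e rfl he.symm
      rw [← this, hone]
      exact hdq
    have hv : d.fst ∈ U := (mem_hD.mp hd).1
    have h4 := min_deg hL hU hmin hv
    have hs1 : (hD G U).filter (fun e => e.fst = d.fst) ⊆ rd R U q := by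
      intro e he
      rw [mem_filter] at he
      exact mem_rd.mpr ⟨he.1, hall e he.2.symm⟩
    have hs2 : (hD G U).filter (fun e => e.snd = d.fst) ⊆ rd R U q := by
      intro e he
      rw [mem_filter] at he
      refine mem_rd.mpr ⟨he.1, ?_⟩
      rw [← hone, ← hs, hone]
      exact hall e.symm he.2.symm
    have hdisj : Disjoint ((hD G U).filter (fun e => e.fst = d.fst))
        ((hD G U).filter (fun e => e.snd = d.fst)) := by
      rw [Finset.disjoint_left]
      intro e he he'
      rw [mem_filter] at he he'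
      exact e.adj.ne (he.2.trans he'.2.symm)
    have hc := Finset.card_le_card (Finset.union_subset hs1 hs2)
    rw [Finset.card_union_of_disjoint hdisj, card_fst U hv, card_snd U hv] at hc
    exact ⟨by omega, fun h => by omega⟩

/-- All vertices of a smallest non-colourable induced subgraph are few in number. -/
theorem card_bound (R : Rotation G) {g : ℕ} (hg : R.GenusAtMost g) {L : V → Finset ℕ}
    (hL : ∀ v, 4 ≤ (L v).card) {U : Finset V}
    (hU : ¬ Col G L U) (hmin : ∀ W, W ⊂ U → Col G L W)
    (htri : ∀ a b c, G.Adj a b → G.Adj b c → ¬ G.Adj c a) :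
    U.card < 80 * g + 4 ∧ U.card + Nat.card (RegH R U) ≤ (hE G U).card ∧ (hD G U).Nonempty := by
  classical
  have hUne : U.Nonempty := by
    rw [Finset.nonempty_iff_ne_empty]
    rintro rfl
    exact hU ⟨fun _ => 0, by simp, by simp⟩
  have hne : (hD G U).Nonempty := by
    obtain ⟨v, hv⟩ := hUne
    have h4 := min_deg hL hU hmin hv
    rw [← card_fst U hv] at h4
    obtain ⟨d, hd⟩ := Finset.card_pos.mp (by omega : 0 < ((hD G U).filter fun d => d.fst = v).card)
    exact ⟨d, (mem_filter.mp hd).1⟩
  have : Finite (Reg R U) := Quot.finite _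
  have : Fintype (RegH R U) := Fintype.ofFinite _
  have heuler := euler R hg hne
  have hM := card_hD (G := G) U
  -- vertex count
  have hsum : ∑ v ∈ U, dgU G U v = (hD G U).card := by
    rw [Finset.card_eq_sum_card_fiberwise (f := fun d : G.Dart => d.fst) (t := U)
      (fun d hd => (mem_hD.mp hd).1)]
    exact Finset.sum_congr rfl (fun v hv => (card_fst U hv).symm)
  -- region count
  have hrsum : ∑ q : RegH R U, (rd R U q.1).card = (hD G U).card := by
    have h1 : (hD G U).card = ∑ q : RegH R U,
        ((hD G U).filter fun d => reg R U d = q.1).card := by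
      have h2 : (hD G U).card = ((hD G U).attach).card := (Finset.card_attach).symm
      rw [h2, Finset.card_eq_sum_card_fiberwise
        (f := fun d : {d // d ∈ hD G U} => (⟨reg R U d.1, d.1, d.2, rfl⟩ : RegH R U)) (t := univ)
        (fun _ _ => mem_univ _)]
      apply Finset.sum_congr rfl
      intro q _
      apply Finset.card_bij (fun d _ => d.1)
      · intro d hd
        rw [mem_filter] at hd ⊢
        exact ⟨d.2, congrArg Subtype.val hd.2⟩
      · intro d _ d' _ h
        exact Subtype.ext h
      · intro d hd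
        rw [mem_filter] at hd
        refine ⟨⟨d, hd.1⟩, ?_, rfl⟩
        rw [mem_filter]
        exact ⟨mem_attach _ _, Subtype.ext hd.2⟩
    rw [h1]
    apply Finset.sum_congr rfl
    intro q _
    congr 1
  have hreg : ∀ q : RegH R U, 4 ≤ (rd R U q.1).card ∧ ((rd R U q.1).card ≤ 4 →
      ∃ d ∈ rd R U q.1, 5 ≤ dgU G U d.fst ∨ 5 ≤ dgU G U d.snd) :=
    fun q => region R hL hU hmin htri q.2
  have hr4 : 4 * Fintype.card (RegH R U) ≤ (hD G U).card := by
    rw [← hrsum]
    calc 4 * Fintype.card (RegH R U) = ∑ _q : RegH R U, 4 := by simp [mul_comm]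
      _ ≤ _ := Finset.sum_le_sum (fun q _ => (hreg q).1)
  have hn4 : 4 * U.card ≤ (hD G U).card := by
    rw [← hsum]
    calc 4 * U.card = ∑ _v ∈ U, 4 := by simp [mul_comm]
      _ ≤ _ := Finset.sum_le_sum (fun v hv => min_deg hL hU hmin hv)
  -- darts at vertices of large degree
  set S5 := ∑ v ∈ U.filter (fun v => 5 ≤ dgU G U v), dgU G U v with hS5
  have hP1 : ((hD G U).filter fun d => 5 ≤ dgU G U d.fst).card ≤ S5 := by
    rw [Finset.card_eq_sum_card_fiberwise (f := fun d : G.Dart => d.fst)
      (t := U.filter (fun v => 5 ≤ dgU G U v))]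
    · apply Finset.sum_le_sum
      intro v hv
      rw [mem_filter] at hv
      rw [← card_fst U hv.1]
      apply Finset.card_le_card
      intro d hd
      rw [mem_filter, mem_filter] at hd
      exact mem_filter.mpr ⟨hd.1.1, hd.2⟩
    · intro d hd
      have hd' := mem_filter.mp (Finset.mem_coe.mp hd)
      exact Finset.mem_coe.mpr (mem_filter.mpr ⟨(mem_hD.mp hd'.1).1, hd'.2⟩)
  have hP2 : ((hD G U).filter fun d => 5 ≤ dgU G U d.snd).card ≤ S5 := by
    rw [Finset.card_eq_sum_card_fiberwise (f := fun d : G.Dart => d.snd)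
      (t := U.filter (fun v => 5 ≤ dgU G U v))]
    · apply Finset.sum_le_sum
      intro v hv
      rw [mem_filter] at hv
      rw [← card_snd U hv.1]
      apply Finset.card_le_card
      intro d hd
      rw [mem_filter, mem_filter] at hd
      exact mem_filter.mpr ⟨hd.1.1, hd.2⟩
    · intro d hd
      have hd' := mem_filter.mp (Finset.mem_coe.mp hd)
      exact Finset.mem_coe.mpr (mem_filter.mpr ⟨(mem_hD.mp hd'.1).2, hd'.2⟩)
  have hS5b : S5 + 20 * U.card ≤ 5 * (hD G U).card := by
    rw [← hsum, Finset.mul_sum]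
    have h1 : S5 + 20 * U.card
        = ∑ v ∈ U, ((if 5 ≤ dgU G U v then dgU G U v else 0) + 20) := by
      rw [Finset.sum_add_distrib, hS5, Finset.sum_filter]
      simp [mul_comm]
    rw [h1]
    apply Finset.sum_le_sum
    intro v hv
    have := min_deg hL hU hmin hv
    split_ifs <;> omega
  -- regions with four darts
  have hr5 : 5 * Fintype.card (RegH R U) ≤ (hD G U).card
      + ((univ : Finset (RegH R U)).filter fun q => (rd R U q.1).card ≤ 4).card := by
    rw [← hrsum, Finset.card_filter, ← Finset.sum_add_distrib]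
    calc 5 * Fintype.card (RegH R U) = ∑ _q : RegH R U, 5 := by simp [mul_comm]
      _ ≤ _ := by
        apply Finset.sum_le_sum
        intro q _
        have := (hreg q).1
        split_ifs <;> omega
  have hr6 : ((univ : Finset (RegH R U)).filter fun q => (rd R U q.1).card ≤ 4).card
      ≤ 2 * S5 := by
    have h1 : ((univ : Finset (RegH R U)).filter fun q => (rd R U q.1).card ≤ 4).card
        ≤ (((hD G U).filter fun d => 5 ≤ dgU G U d.fst) ∪
          ((hD G U).filter fun d => 5 ≤ dgU G U d.snd)).card := by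
      have h2 : ∀ q : RegH R U, ∃ d : G.Dart, (rd R U q.1).card ≤ 4 →
          d ∈ rd R U q.1 ∧ (5 ≤ dgU G U d.fst ∨ 5 ≤ dgU G U d.snd) := by
        intro q
        by_cases h : (rd R U q.1).card ≤ 4
        · obtain ⟨d, hd⟩ := (hreg q).2 h
          exact ⟨d, fun _ => hd⟩
        · exact ⟨hne.choose, fun h' => absurd h' h⟩
      choose F hF using h2
      apply Finset.card_le_card_of_injOn F
      · intro q hq
        have hq' := (mem_filter.mp (Finset.mem_coe.mp hq)).2
        obtain ⟨h3, h4⟩ := hF q hq'
        have h5 := (mem_rd.mp h3).1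
        rw [Finset.mem_coe, mem_union, mem_filter, mem_filter]
        rcases h4 with h4 | h4
        · exact Or.inl ⟨h5, h4⟩
        · exact Or.inr ⟨h5, h4⟩
      · intro q hq q' hq' h
        have h3 := (mem_rd.mp (hF q (mem_filter.mp (Finset.mem_coe.mp hq)).2).1).2
        have h4 := (mem_rd.mp (hF q' (mem_filter.mp (Finset.mem_coe.mp hq')).2).1).2
        apply Subtype.ext
        rw [← h3, ← h4, h]
    have h3 := Finset.card_union_le ((hD G U).filter fun d => 5 ≤ dgU G U d.fst)
      ((hD G U).filter fun d => 5 ≤ dgU G U d.snd)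
    omega
  rw [Nat.card_eq_fintype_card] at heuler ⊢
  refine ⟨by omega, by omega, hne⟩

end Pool.Agent.TH456.EF
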