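import Pool.Agent.TH456.EF.Faces

/-!
# Chains of an induced subgraph, regions
-/

namespace Pool.Agent.TH456.EF

open SimpleGraph Finset

variable {V : Type} [Fintype V] [DecidableEq V] {G : SimpleGraph V} [DecidableRel G.Adj]

/-- The darts of the subgraph induced on `U`. -/
def hD (G : SimpleGraph V) [DecidableRel G.Adj] (U : Finset V) : Finset G.Dart :=
  univ.filter fun d => d.fst ∈ U ∧ d.snd ∈ U

theorem mem_hD {U : Finset V} {d : G.Dart} : d ∈ hD G U ↔ d.fst ∈ U ∧ d.snd ∈ U := by
  simp [hD]

theorem symm_mem_hD {U : Finset V} {d : G.Dart} : d.symm ∈ hD G U ↔ d ∈ hD G U := by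
  rw [mem_hD, mem_hD]
  exact and_comm

/-- The edges of the subgraph induced on `U`. -/
def hE (G : SimpleGraph V) [DecidableRel G.Adj] (U : Finset V) : Finset G.edgeSet :=
  (hD G U).image ed

theorem ed_mem_hE {U : Finset V} {d : G.Dart} : ed d ∈ hE G U ↔ d ∈ hD G U := by
  unfold hE
  rw [mem_image]
  constructor
  · rintro ⟨d', hd', h⟩
    rcases ed_eq.mp h with rfl | rfl
    · exact hd'
    · exact symm_mem_hD.mp hd'
  · intro h
    exact ⟨d, h, rfl⟩

theorem card_hD (U : Finset V) : (hD G U).card = 2 * (hE G U).card := by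
  classical
  have h := Finset.card_eq_sum_card_image (ed : G.Dart → G.edgeSet) (hD G U)
  rw [h]
  change ∑ b ∈ hE G U, _ = _
  rw [Finset.sum_congr rfl (g := fun _ => 2)]
  · rw [Finset.sum_const, smul_eq_mul, mul_comm]
  · intro e he
    obtain ⟨d, rfl⟩ := exists_ed e
    have : (hD G U).filter (fun d' => ed d' = ed d) = {d, d.symm} := by
      ext d'
      simp only [mem_filter, mem_insert, mem_singleton, ed_eq]
      constructor
      · rintro ⟨_, h⟩; exact h
      · rintro (rfl | rfl)
        · exact ⟨ed_mem_hE.mp he, Or.inl rfl⟩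
        · exact ⟨symm_mem_hD.mpr (ed_mem_hE.mp he), Or.inr rfl⟩
    rw [this, card_pair (Dart.symm_ne d).symm]

/-- The chains supported on the induced subgraph. -/
def SH (G : SimpleGraph V) [DecidableRel G.Adj] (U : Finset V) :
    Submodule (ZMod 2) (G.edgeSet → ZMod 2) where
  carrier := {z | ∀ e, e ∉ hE G U → z e = 0}
  add_mem' := by
    intro z z' hz hz' e he
    simp [hz e he, hz' e he]
  zero_mem' := fun _ _ => rfl
  smul_mem' := by
    intro c z hz e he
    simp [hz e he]

theorem mem_SH {U : Finset V} {z : G.edgeSet → ZMod 2} :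
    z ∈ SH G U ↔ ∀ e, e ∉ hE G U → z e = 0 := Iff.rfl

theorem sum_bdm (z : G.edgeSet → ZMod 2) : ∑ v, bdm z v = 0 := by
  have h := pairing (fun _ => 1) z
  simp only [one_mul] at h
  rw [h]
  apply Finset.sum_eq_zero
  intro e _
  obtain ⟨d, rfl⟩ := exists_ed e
  rw [fold_ed]
  have : (1 : ZMod 2) + 1 = 0 := by decide
  rw [this, zero_mul]

theorem bdm_zero_off {U : Finset V} {z : G.edgeSet → ZMod 2} (hz : z ∈ SH G U) {v : V}
    (hv : v ∉ U) : bdm z v = 0 := by
  rw [bdm_apply]
  apply Finset.sum_eq_zero
  intro d _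
  split_ifs with h
  · apply hz
    rw [ed_mem_hE, mem_hD, h]
    exact fun h => hv h.1
  · rfl

theorem lowerZ {U : Finset V} (hU : U.Nonempty) :
    (hE G U).card + 1 ≤ Module.finrank (ZMod 2) (Z G ⊓ SH G U : Submodule _ _) + U.card := by
  classical
  -- extension by zero
  let ext : (↥(hE G U) → ZMod 2) →ₗ[ZMod 2] (G.edgeSet → ZMod 2) :=
    { toFun := fun z e => if h : e ∈ hE G U then z ⟨e, h⟩ else 0
      map_add' := by
        intro z z'; funext e
        simp only [Pi.add_apply]
        split_ifs <;> simp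
      map_smul' := by
        intro c z; funext e
        simp only [Pi.smul_apply, smul_eq_mul, RingHom.id_apply]
        split_ifs <;> simp }
  have hext : ∀ z, ext z ∈ SH G U := by
    intro z e he
    simp [ext, he]
  have hinj : Function.Injective ext := by
    intro z z' h
    funext ⟨e, he⟩
    have := congrFun h e
    simpa [ext, he] using this
  let res : (V → ZMod 2) →ₗ[ZMod 2] (↥U → ZMod 2) :=
    LinearMap.funLeft (ZMod 2) (ZMod 2) (fun v : ↥U => v.1)
  let T : (↥(hE G U) → ZMod 2) →ₗ[ZMod 2] (↥U → ZMod 2) := res ∘ₗ bdm ∘ₗ ext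
  have h1 := LinearMap.finrank_range_add_finrank_ker T
  have hdom : Module.finrank (ZMod 2) (↥(hE G U) → ZMod 2) = (hE G U).card := by simp
  -- the kernel
  have hker : Module.finrank (ZMod 2) (LinearMap.ker T)
      ≤ Module.finrank (ZMod 2) (Z G ⊓ SH G U : Submodule _ _) := by
    have hle : (LinearMap.ker T).map ext ≤ Z G ⊓ SH G U := by
      rintro w ⟨z, hz, rfl⟩
      refine ⟨?_, hext z⟩
      change bdm (ext z) = 0
      funext v
      by_cases hv : v ∈ U
      · exact congrFun (hz : T z = 0) ⟨v, hv⟩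
      · exact bdm_zero_off (hext z) hv
    calc Module.finrank (ZMod 2) (LinearMap.ker T)
        = Module.finrank (ZMod 2) ((LinearMap.ker T).map ext) :=
          (LinearEquiv.finrank_eq (Submodule.equivMapOfInjective ext hinj _))
      _ ≤ _ := Submodule.finrank_mono hle
  -- the range
  let sm : (↥U → ZMod 2) →ₗ[ZMod 2] ZMod 2 :=
    { toFun := fun y => ∑ v, y v
      map_add' := by intro y y'; simp [Finset.sum_add_distrib]
      map_smul' := by intro c y; simp [Finset.mul_sum] }
  have hrange : LinearMap.range T ≤ LinearMap.ker sm := by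
    rintro y ⟨z, rfl⟩
    rw [LinearMap.mem_ker]
    change ∑ v : ↥U, bdm (ext z) v.1 = 0
    have h2 : ∑ v : ↥U, bdm (ext z) v.1 = ∑ v ∈ U, bdm (ext z) v :=
      Finset.sum_coe_sort U (fun v => bdm (ext z) v)
    have h3 : ∑ v ∈ U, bdm (ext z) v = ∑ v, bdm (ext z) v :=
      Finset.sum_subset (Finset.subset_univ U) (fun v _ hv => bdm_zero_off (hext z) hv)
    rw [h2, h3, sum_bdm]
  have hsm : Module.finrank (ZMod 2) (LinearMap.ker sm) + 1 = U.card := by
    have h4 := LinearMap.finrank_range_add_finrank_ker sm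
    have h5 : LinearMap.range sm = ⊤ := by
      rw [LinearMap.range_eq_top]
      intro c
      obtain ⟨v, hv⟩ := hU
      refine ⟨Pi.single ⟨v, hv⟩ c, ?_⟩
      simp [sm]
    rw [h5] at h4
    simp at h4
    omega
  have h6 : Module.finrank (ZMod 2) (LinearMap.range T) ≤ Module.finrank (ZMod 2) (LinearMap.ker sm) :=
    Submodule.finrank_mono hrange
  omega

/-! ### Regions -/

/-- Elementary steps between the darts on the boundary of the same region of the subgraph. -/
def regRel (R : Rotation G) (U : Finset V) (d d' : G.Dart) : Prop :=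
  d' = R.face d ∨ (d ∉ hD G U ∧ d' = d.symm)

/-- The regions of the subgraph induced on `U`. -/
abbrev Reg (R : Rotation G) (U : Finset V) : Type := Quot (regRel R U)

/-- The region of a dart. -/
def reg (R : Rotation G) (U : Finset V) (d : G.Dart) : Reg R U := Quot.mk _ d

theorem reg_face (R : Rotation G) (U : Finset V) (d : G.Dart) :
    reg R U (R.face d) = reg R U d := by
  have h : regRel R U d (R.face d) := Or.inl rfl
  exact (Quot.sound h).symm

theorem reg_symm (R : Rotation G) (U : Finset V) {d : G.Dart} (hd : d ∉ hD G U) :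
    reg R U d.symm = reg R U d := by
  have h : regRel R U d d.symm := Or.inr ⟨hd, rfl⟩
  exact (Quot.sound h).symm

/-- The regions with an edge of the subgraph on their boundary. -/
abbrev RegH (R : Rotation G) (U : Finset V) : Type :=
  {q : Reg R U // ∃ d ∈ hD G U, reg R U d = q}

theorem upperB (R : Rotation G) {U : Finset V} (hne : (hD G U).Nonempty) :
    Module.finrank (ZMod 2) (B R ⊓ SH G U : Submodule _ _) + 1 ≤ Nat.card (RegH R U) := by
  classical
  have : Finite (Reg R U) := Quot.finite _
  have : Fintype (RegH R U) := Fintype.ofFinite _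
  rw [Nat.card_eq_fintype_card]
  let ex : (RegH R U → ZMod 2) → G.Dart → ZMod 2 := fun y d =>
    if h : d ∈ hD G U then y ⟨reg R U d, d, h, rfl⟩ else 0
  let T : (RegH R U → ZMod 2) →ₗ[ZMod 2] (G.edgeSet → ZMod 2) :=
    { toFun := fun y => fold (ex y)
      map_add' := by
        intro y y'
        have : ex (y + y') = ex y + ex y' := by
          funext d
          simp only [ex, Pi.add_apply]
          split_ifs <;> simp
        rw [this]
        exact map_add foldm _ _
      map_smul' := by
        intro c y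
        have : ex (c • y) = c • ex y := by
          funext d
          simp only [ex, Pi.smul_apply, smul_eq_mul]
          split_ifs <;> simp
        rw [this]
        exact map_smul foldm _ _ }
  have hT : ∀ y, T y = fold (ex y) := fun _ => rfl
  have hle : (B R ⊓ SH G U : Submodule _ _) ≤ LinearMap.range T := by
    rintro z ⟨⟨x, hx, hxz⟩, hz⟩
    have hresp : ∀ d d', regRel R U d d' → x d = x d' := by
      rintro d d' (rfl | ⟨hd, rfl⟩)
      · exact (hx d).symm
      · have h1 : z (ed d) = 0 := hz _ (fun h => hd (ed_mem_hE.mp h))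
        rw [← hxz] at h1
        change fold x (ed d) = 0 at h1
        rw [fold_ed] at h1
        exact CharTwo.add_eq_zero.mp h1
    refine ⟨fun q => Quot.lift x hresp q.1, ?_⟩
    rw [hT]
    funext e
    obtain ⟨d, rfl⟩ := exists_ed e
    rw [fold_ed]
    by_cases hd : d ∈ hD G U
    · have hd' : d.symm ∈ hD G U := symm_mem_hD.mpr hd
      simp only [ex, dif_pos hd, dif_pos hd']
      change x d + x d.symm = _
      rw [← hxz]
      exact (fold_ed x d).symm
    · have hd' : d.symm ∉ hD G U := fun h => hd (symm_mem_hD.mp h)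
      simp only [ex, dif_neg hd, dif_neg hd']
      rw [hz _ (fun h => hd (ed_mem_hE.mp h)), add_zero]
  have h1 := LinearMap.finrank_range_add_finrank_ker T
  have h2 : Module.finrank (ZMod 2) (B R ⊓ SH G U : Submodule _ _)
      ≤ Module.finrank (ZMod 2) (LinearMap.range T) := Submodule.finrank_mono hle
  have h3 : 0 < Module.finrank (ZMod 2) (LinearMap.ker T) := by
    rw [Module.finrank_pos_iff_exists_ne_zero]
    refine ⟨⟨fun _ => 1, ?_⟩, ?_⟩
    · rw [LinearMap.mem_ker, hT]
      funext e
      obtain ⟨d, rfl⟩ := exists_ed e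
      rw [fold_ed]
      by_cases hd : d ∈ hD G U
      · have hd' : d.symm ∈ hD G U := symm_mem_hD.mpr hd
        simp only [ex, dif_pos hd, dif_pos hd']
        exact (by decide : (1 : ZMod 2) + 1 = 0)
      · have hd' : d.symm ∉ hD G U := fun h => hd (symm_mem_hD.mp h)
        simp only [ex, dif_neg hd, dif_neg hd']
        exact (by decide : (0 : ZMod 2) + 0 = 0)
    · intro h
      obtain ⟨d, hd⟩ := hne
      have h4 := congrFun (congrArg Subtype.val h) ⟨reg R U d, d, hd, rfl⟩
      simp at h4
  have h5 : Module.finrank (ZMod 2) (RegH R U → ZMod 2) = Fintype.card (RegH R U) := by simp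
  omega

/-- Euler's inequality for the subgraph. -/
theorem euler (R : Rotation G) {g : ℕ} (hg : R.GenusAtMost g) {U : Finset V}
    (hne : (hD G U).Nonempty) :
    (hE G U).card + 2 ≤ U.card + Nat.card (RegH R U) + 2 * g := by
  have hU : U.Nonempty := by
    obtain ⟨d, hd⟩ := hne
    exact ⟨d.fst, (mem_hD.mp hd).1⟩
  have h1 := lowerZ (G := G) hU
  have h2 := upperB R hne
  have h3 := finrank_Z_le_B R hg
  have h4 := Submodule.finrank_sup_add_finrank_inf_eq (Z G ⊓ SH G U : Submodule _ _) (B R)
  have h5 : Module.finrank (ZMod 2) ((Z G ⊓ SH G U) ⊔ B R : Submodule _ _)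
      ≤ Module.finrank (ZMod 2) (Z G) :=
    Submodule.finrank_mono (sup_le inf_le_left (B_le_Z R))
  have h6 : Module.finrank (ZMod 2) ((Z G ⊓ SH G U) ⊓ B R : Submodule _ _)
      ≤ Module.finrank (ZMod 2) (B R ⊓ SH G U : Submodule _ _) :=
    Submodule.finrank_mono (fun z hz => ⟨hz.2, hz.1.2⟩)
  omega

/-- Euler's formula when all cycles of the subgraph are sums of faces. -/
theorem euler_planar (R : Rotation G) {U : Finset V} (hne : (hD G U).Nonempty)
    (hB : (Z G ⊓ SH G U : Submodule _ _) ≤ B R) :
    (hE G U).card + 2 ≤ U.card + Nat.card (RegH R U) := by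
  have hU : U.Nonempty := by
    obtain ⟨d, hd⟩ := hne
    exact ⟨d.fst, (mem_hD.mp hd).1⟩
  have h1 := lowerZ (G := G) hU
  have h2 := upperB R hne
  have h3 : Module.finrank (ZMod 2) (Z G ⊓ SH G U : Submodule _ _)
      ≤ Module.finrank (ZMod 2) (B R ⊓ SH G U : Submodule _ _) :=
    Submodule.finrank_mono (fun z hz => ⟨hB hz, hz.2⟩)
  omega

end Pool.Agent.TH456.EF
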